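import Mathlib

set_option autoImplicit false
set_option linter.unusedSectionVars false
set_option linter.unusedVariables false

/-!
# Stable spaces of functions for abelian groups of permutations
-/

open Module Polynomial

noncomputable section

namespace Pool.Agent.T9h38.KS

/-! ### Arithmetic -/

/-- The exponent of a set of primes. -/
def ex (m : ℕ) (S : Finset ℕ) : ℕ := ∑ p ∈ S, m / p

theorem dvd_div_of_ne {m p q : ℕ} (hm : m ≠ 0) (hp : p.Prime) (hq : q ∈ m.primeFactors)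
    (hpq : q ≠ p) : p ^ m.factorization p ∣ m / q := by
  have hqp := Nat.prime_of_mem_primeFactors hq
  have hqm := Nat.dvd_of_mem_primeFactors hq
  have h1 : p ^ m.factorization p ∣ q * (m / q) := by
    rw [Nat.mul_div_cancel' hqm]
    exact Nat.ordProj_dvd m p
  have h2 : Nat.Coprime (p ^ m.factorization p) q :=
    Nat.Coprime.pow_left _ ((Nat.coprime_primes hp hqp).2 (Ne.symm hpq))
  exact h2.dvd_of_dvd_mul_left h1

theorem not_dvd_div {m p : ℕ} (hm : m ≠ 0) (hp : p ∈ m.primeFactors) :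
    ¬p ^ m.factorization p ∣ m / p := by
  have hpp := Nat.prime_of_mem_primeFactors hp
  have hpm := Nat.dvd_of_mem_primeFactors hp
  intro h
  apply Nat.pow_succ_factorization_not_dvd hm hpp
  rw [pow_succ]
  have h1 := Nat.mul_dvd_mul_right h p
  rwa [Nat.div_mul_cancel hpm] at h1

theorem mem_iff_ex {m p : ℕ} (hm : m ≠ 0) (hp : p ∈ m.primeFactors) {S : Finset ℕ}
    (hS : S ⊆ m.primeFactors) : p ∈ S ↔ ¬p ^ m.factorization p ∣ ex m S := by
  have hpp := Nat.prime_of_mem_primeFactors hp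
  unfold ex
  by_cases h : p ∈ S
  · rw [← Finset.add_sum_erase S _ h]
    have h1 : p ^ m.factorization p ∣ ∑ q ∈ S.erase p, m / q :=
      Finset.dvd_sum fun q hq => dvd_div_of_ne hm hpp (hS (Finset.mem_of_mem_erase hq))
        (Finset.ne_of_mem_erase hq)
    rw [Nat.dvd_add_left h1]
    exact ⟨fun _ => not_dvd_div hm hp, fun _ => h⟩
  · refine ⟨fun h' => absurd h' h, fun h' => absurd ?_ h'⟩
    exact Finset.dvd_sum fun q hq => dvd_div_of_ne hm hpp (hS hq) fun h2 => h (h2 ▸ hq)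

theorem ex_inj {m : ℕ} (hm : m ≠ 0) {S S' : Finset ℕ} (hS : S ⊆ m.primeFactors)
    (hS' : S' ⊆ m.primeFactors) (h : ex m S ≡ ex m S' [MOD m]) : S = S' := by
  have key : ∀ p ∈ m.primeFactors, p ∈ S ↔ p ∈ S' := by
    intro p hp
    rw [mem_iff_ex hm hp hS, mem_iff_ex hm hp hS', not_iff_not]
    have h1 : ex m S ≡ ex m S' [MOD p ^ m.factorization p] := h.of_dvd (Nat.ordProj_dvd m p)
    exact h1.dvd_iff (dvd_refl _)
  ext p
  constructor
  · intro hp
    exact (key p (hS hp)).1 hp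
  · intro hp
    exact (key p (hS' hp)).2 hp

/-- The polynomial. -/
def PP (m : ℕ) : ℚ[X] := ∏ p ∈ m.primeFactors, (1 - X ^ (m / p))

theorem PP_eq (m : ℕ) : PP m = ∑ S ∈ m.primeFactors.powerset, (-1) ^ S.card * X ^ ex m S := by
  have h1 : PP m = ∏ p ∈ m.primeFactors, (1 + -X ^ (m / p)) := by
    unfold PP
    exact Finset.prod_congr rfl fun p _ => by rw [sub_eq_add_neg]
  rw [h1, Finset.prod_one_add]
  refine Finset.sum_congr rfl fun S _ => ?_
  have h2 : ∀ p ∈ S, (-X ^ (m / p) : ℚ[X]) = -1 * X ^ (m / p) := fun p _ => by ring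
  rw [Finset.prod_congr rfl h2, Finset.prod_mul_distrib, Finset.prod_const,
    Finset.prod_pow_eq_pow_sum]
  rfl

theorem dvd_PP {m : ℕ} (hm : 0 < m) : (X ^ m - 1 : ℚ[X]) ∣ PP m * cyclotomic m ℚ := by
  rw [← prod_cyclotomic_eq_X_pow_sub_one hm ℚ]
  refine Finset.prod_dvd_of_coprime (fun a _ b _ hab => cyclotomic.isCoprime_rat hab)
    fun d hd => ?_
  have hdm := Nat.dvd_of_mem_divisors hd
  by_cases h : d = m
  · rw [h]
    exact dvd_mul_left _ _
  · refine dvd_mul_of_dvd_left ?_ _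
    obtain ⟨e, he⟩ := hdm
    have he1 : e ≠ 1 := by
      rintro rfl
      exact h (by rw [he, mul_one])
    obtain ⟨p, hp, hpe⟩ := Nat.exists_prime_and_dvd he1
    obtain ⟨e', rfl⟩ := hpe
    have hpm : p ∈ m.primeFactors := by
      rw [Nat.mem_primeFactors]
      refine ⟨hp, ?_, by omega⟩
      rw [he]
      exact Dvd.intro_left (d * e') (by ring)
    have hdiv : m / p = d * e' := by
      rw [he]
      apply Nat.div_eq_of_eq_mul_left hp.pos
      ring
    have h1 : cyclotomic d ℚ ∣ X ^ (m / p) - 1 := by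
      rw [hdiv]
      exact (cyclotomic.dvd_X_pow_sub_one d ℚ).trans
        (by
          rw [pow_mul]
          exact sub_one_dvd_pow_sub_one _ _)
    have h2 : (1 - X ^ (m / p) : ℚ[X]) ∣ PP m := Finset.dvd_prod_of_mem _ hpm
    refine Dvd.dvd.trans ?_ h2
    rw [← neg_sub, dvd_neg]
    exact h1

/-! ### Abelian groups of permutations -/

variable {Ω : Type} [Fintype Ω] [DecidableEq Ω]

/-- The translation. -/
def tr (a : Equiv.Perm Ω) : Module.End ℚ (Ω → ℚ) := LinearMap.funLeft ℚ ℚ (a⁻¹ : Equiv.Perm Ω)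

theorem tr_apply (a : Equiv.Perm Ω) (f : Ω → ℚ) (x : Ω) : tr a f x = f (a⁻¹ x) := rfl

theorem tr_pow (a : Equiv.Perm Ω) (k : ℕ) (f : Ω → ℚ) (x : Ω) :
    (tr a ^ k) f x = f ((a ^ k)⁻¹ x) := by
  induction k generalizing f with
  | zero => simp
  | succ k ih =>
    rw [pow_succ, Module.End.mul_apply, ih, tr_apply, ← Equiv.Perm.mul_apply, ← mul_inv_rev,
      ← pow_succ]

theorem exists_char {G : Type} [CommGroup G] [Fintype G] [DecidableEq G] {j : G → ℚ} (hj : j ≠ 0) :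
    ∃ χ : G →* ℂˣ, ∑ γ, (j γ : ℂ) * (χ γ : ℂ) ≠ 0 := by
  by_contra hcon
  push Not at hcon
  apply hj
  have h1 : ∀ ψ : AddChar (Additive G) ℂ, ∑ γ : G, (j γ : ℂ) * ψ (Additive.ofMul γ) = 0 := by
    intro ψ
    let χ' : G →* ℂ :=
      { toFun := fun γ => ψ (Additive.ofMul γ)
        map_one' := by rw [ofMul_one]; exact ψ.map_zero_eq_one
        map_mul' := fun a b => by rw [ofMul_mul]; exact ψ.map_add_eq_mul _ _ }
    have h2 := hcon χ'.toHomUnits
    exact h2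
  funext γ₀
  have h2 : ∑ ψ : AddChar (Additive G) ℂ, ψ (-Additive.ofMul γ₀) *
      ∑ γ : G, (j γ : ℂ) * ψ (Additive.ofMul γ) = 0 :=
    Finset.sum_eq_zero fun ψ _ => by rw [h1 ψ, mul_zero]
  have h3 : ∑ ψ : AddChar (Additive G) ℂ, ψ (-Additive.ofMul γ₀) *
      ∑ γ : G, (j γ : ℂ) * ψ (Additive.ofMul γ) =
      ∑ γ : G, (j γ : ℂ) * ∑ ψ : AddChar (Additive G) ℂ,
        ψ (Additive.ofMul γ - Additive.ofMul γ₀) := by
    simp only [Finset.mul_sum]
    rw [Finset.sum_comm]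
    refine Finset.sum_congr rfl fun γ _ => Finset.sum_congr rfl fun ψ _ => ?_
    rw [sub_eq_add_neg, ψ.map_add_eq_mul]
    ring
  rw [h3, Finset.sum_eq_single γ₀] at h2
  · rw [AddChar.sum_apply_eq_ite, if_pos (sub_self _)] at h2
    have h4 : (Fintype.card (Additive G) : ℂ) ≠ 0 := Nat.cast_ne_zero.2 Fintype.card_ne_zero
    have h5 := (mul_eq_zero.1 h2).resolve_right h4
    exact_mod_cast h5
  · intro γ _ hγ
    rw [AddChar.sum_apply_eq_ite, if_neg, mul_zero]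
    intro h
    exact hγ (Additive.ofMul.injective (sub_eq_zero.1 h))
  · intro h; exact absurd (Finset.mem_univ _) h

/-- **Abelian groups**: every nonzero stable space contains a nonzero function with values in
`{0, 1, -1}`. -/
theorem abelian_small (G : Subgroup (Equiv.Perm Ω)) (hcomm : ∀ a ∈ G, ∀ b ∈ G, a * b = b * a)
    (x₀ : Ω) (htr : ∀ x, ∃ a ∈ G, a x₀ = x) {J : Submodule ℚ (Ω → ℚ)}
    (hJ : ∀ a ∈ G, ∀ f ∈ J, (fun x => f (a x)) ∈ J) (hne : J ≠ ⊥) :
    ∃ f ∈ J, f ≠ 0 ∧ ∀ x, f x = 0 ∨ f x = 1 ∨ f x = -1 := by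
  classical
  let _ : CommGroup G := { (inferInstance : Group G) with
    mul_comm := fun a b => Subtype.ext (hcomm a a.2 b b.2) }
  -- the elements of the group
  choose el hel hel' using htr
  have hfree : ∀ a ∈ G, a x₀ = x₀ → a = 1 := by
    intro a ha h
    ext x
    obtain ⟨b, hb, rfl⟩ : ∃ b ∈ G, b x₀ = x := ⟨el x, hel x, hel' x⟩
    rw [← Equiv.Perm.mul_apply, hcomm a ha b hb, Equiv.Perm.mul_apply, h]
    rfl
  have heq : ∀ a ∈ G, ∀ b ∈ G, a x₀ = b x₀ → a = b := by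
    intro a ha b hb h
    have h1 := hfree (b⁻¹ * a) (G.mul_mem (G.inv_mem hb) ha) (by
      rw [Equiv.Perm.mul_apply, h]
      exact b.symm_apply_apply x₀)
    exact (inv_mul_eq_one.1 h1).symm
  have helx : ∀ a (ha : a ∈ G) x, (⟨el (a x), hel (a x)⟩ : G) = ⟨a, ha⟩ * ⟨el x, hel x⟩ := by
    intro a ha x
    apply Subtype.ext
    refine heq _ (hel _) _ (G.mul_mem ha (hel x)) ?_
    change el (a x) x₀ = (a * el x) x₀
    rw [hel', Equiv.Perm.mul_apply, hel']
  obtain ⟨j, hj, hj0⟩ := (Submodule.ne_bot_iff J).1 hne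
  -- the character
  have hj0' : (fun γ : G => j ((γ : Equiv.Perm Ω) x₀)) ≠ 0 := by
    intro h
    apply hj0
    funext x
    have := congrFun h ⟨el x, hel x⟩
    rw [Pi.zero_apply] at this ⊢
    rw [← this]
    exact congrArg j (hel' x).symm
  obtain ⟨χ, hχ⟩ := exists_char hj0'
  -- the class function
  obtain ⟨c, hc⟩ : ∃ c : Ω → ℂˣ, ∀ x, c x = χ ⟨el x, hel x⟩ := ⟨_, fun _ => rfl⟩
  have hcm : ∀ a (ha : a ∈ G) x, c (a x) = χ ⟨a, ha⟩ * c x := by
    intro a ha x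
    rw [hc, helx a ha x, map_mul, ← hc]
  have hc0 : c x₀ = 1 := by
    rw [hc]
    have h1 : (⟨el x₀, hel x₀⟩ : G) = 1 := Subtype.ext (hfree _ (hel x₀) (hel' x₀))
    rw [h1, map_one]
  -- the generator
  have hcyc : IsCyclic χ.range := inferInstance
  obtain ⟨⟨ζ, γ₀, hγ₀⟩, hgen⟩ := hcyc.exists_generator
  obtain ⟨m, hm⟩ : ∃ m, m = orderOf ζ := ⟨_, rfl⟩
  have hmpos : 0 < m := by
    rw [hm, orderOf_pos_iff]
    rw [← hγ₀]
    exact MonoidHom.isOfFinOrder χ (isOfFinOrder_of_finite γ₀)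
  have hζ : IsPrimitiveRoot (ζ : ℂ) m := by
    rw [hm]
    have := IsPrimitiveRoot.orderOf (ζ : ℂ)
    rwa [orderOf_units] at this
  have hpow : ∀ γ : G, ∃ i : ℕ, i < m ∧ χ γ = ζ ^ i := by
    intro γ
    have h1 := hgen ⟨χ γ, γ, rfl⟩
    have h2 : (⟨χ γ, γ, rfl⟩ : χ.range) ∈ Submonoid.powers (⟨ζ, γ₀, hγ₀⟩ : χ.range) := by
      rwa [← mem_powers_iff_mem_zpowers] at h1
    obtain ⟨i, hi⟩ := h2
    refine ⟨i % m, Nat.mod_lt _ hmpos, ?_⟩
    have h3 : ζ ^ i = χ γ := congrArg Subtype.val hi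
    rw [hm, pow_mod_orderOf, h3]
  obtain ⟨g, hg, hχg⟩ : ∃ g : Equiv.Perm Ω, ∃ hg : g ∈ G, χ ⟨g, hg⟩ = ζ := ⟨γ₀, γ₀.2, hγ₀⟩
  have hcg : ∀ (i : ℕ) x, c ((g ^ i) x) = ζ ^ i * c x := by
    intro i x
    rw [hcm (g ^ i) (G.pow_mem hg i)]
    congr 1
    rw [← hχg, ← map_pow]
    rfl
  have hcginv : ∀ (i : ℕ) x, c ((g ^ i)⁻¹ x) = (ζ ^ i)⁻¹ * c x := by
    intro i x
    have h1 := hcg i ((g ^ i)⁻¹ x)
    have h2 : (g ^ i) ((g ^ i)⁻¹ x) = x := (g ^ i).apply_symm_apply x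
    rw [h2] at h1
    rw [h1, inv_mul_cancel_left]
  have hcpow : ∀ x, ∃ i : ℕ, i < m ∧ c x = ζ ^ i := fun x => by
    rw [hc]
    exact hpow _
  have hpowinj : ∀ i k : ℕ, ζ ^ i = ζ ^ k ↔ i ≡ k [MOD m] := by
    intro i k
    rw [hm]
    exact pow_eq_pow_iff_modEq
  -- the indicator function of the class of the base point
  obtain ⟨δ, hδ⟩ : ∃ δ : Ω → ℚ, ∀ x, δ x = if c x = 1 then 1 else 0 := ⟨_, fun _ => rfl⟩
  have hTδ : ∀ (i : ℕ) x, (tr g ^ i) δ x = if c x = ζ ^ i then 1 else 0 := by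
    intro i x
    rw [tr_pow, hδ, hcginv]
    simp only [inv_mul_eq_one, eq_comm]
  -- the average
  let N : Finset G := Finset.univ.filter fun γ => χ γ = 1
  obtain ⟨jN, hjN⟩ : ∃ jN : Ω → ℚ, ∀ x, jN x = ∑ γ ∈ N, j ((γ : Equiv.Perm Ω) x) :=
    ⟨_, fun _ => rfl⟩
  have hjNJ : jN ∈ J := by
    have h1 : jN = ∑ γ ∈ N, fun x => j ((γ : Equiv.Perm Ω) x) := by
      funext x
      rw [hjN, Finset.sum_apply]
    rw [h1]
    exact J.sum_mem fun γ _ => hJ γ γ.2 j hj
  have hjNc : ∀ x y, c x = c y → jN x = jN y := by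
    intro x y hxy
    have h1 : (⟨el y, hel y⟩ * (⟨el x, hel x⟩ : G)⁻¹ : G) ∈ N := by
      refine Finset.mem_filter.2 ⟨Finset.mem_univ _, ?_⟩
      rw [map_mul, map_inv, ← hc, ← hc, hxy, mul_inv_cancel]
    have h2 : y = ((⟨el y, hel y⟩ * (⟨el x, hel x⟩ : G)⁻¹ : G) : Equiv.Perm Ω) x := by
      change y = (el y * (el x)⁻¹) x
      rw [Equiv.Perm.mul_apply]
      have h3 : (el x)⁻¹ x = x₀ := by
        rw [Equiv.Perm.inv_eq_iff_eq]
        exact (hel' x).symm
      rw [h3, hel']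
    rw [hjN, hjN]
    conv_rhs => rw [h2]
    obtain ⟨n, hn⟩ : ∃ n : G, n = ⟨el y, hel y⟩ * (⟨el x, hel x⟩ : G)⁻¹ := ⟨_, rfl⟩
    rw [← hn] at h1 ⊢
    have hn1 : χ n = 1 := (Finset.mem_filter.1 h1).2
    refine Finset.sum_nbij' (fun γ => γ * n⁻¹) (fun γ => γ * n) ?_ ?_ ?_ ?_ ?_
    · intro γ hγ
      refine Finset.mem_filter.2 ⟨Finset.mem_univ _, ?_⟩
      rw [map_mul, map_inv, hn1, (Finset.mem_filter.1 hγ).2, inv_one, mul_one]
    · intro γ hγ
      refine Finset.mem_filter.2 ⟨Finset.mem_univ _, ?_⟩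
      rw [map_mul, hn1, (Finset.mem_filter.1 hγ).2, mul_one]
    · intro γ _
      rw [inv_mul_cancel_right]
    · intro γ _
      rw [mul_inv_cancel_right]
    · intro γ _
      congr 1
      change (γ : Equiv.Perm Ω) x = ((γ * n⁻¹ : G) : Equiv.Perm Ω) ((n : Equiv.Perm Ω) x)
      rw [← Equiv.Perm.mul_apply]
      congr 1
      have h4 : γ = γ * n⁻¹ * n := (inv_mul_cancel_right γ n).symm
      exact congrArg Subtype.val h4
  -- the polynomial of the average
  let Q : ℚ[X] := ∑ i ∈ Finset.range m, C (jN ((g ^ i) x₀)) * X ^ i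
  have hcx : ∀ i : ℕ, c ((g ^ i) x₀) = ζ ^ i := fun i => by rw [hcg, hc0, mul_one]
  have hQδ : aeval (tr g) Q δ = jN := by
    funext x
    obtain ⟨i, hi, hix⟩ := hcpow x
    have h1 : aeval (tr g) Q δ x = ∑ k ∈ Finset.range m, jN ((g ^ k) x₀) * (tr g ^ k) δ x := by
      change aeval (tr g) (∑ i ∈ Finset.range m, C (jN ((g ^ i) x₀)) * X ^ i) δ x = _
      rw [map_sum, LinearMap.sum_apply, Finset.sum_apply]
      refine Finset.sum_congr rfl fun k _ => ?_
      rw [map_mul, aeval_C, map_pow, aeval_X, Module.End.mul_apply,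
        Module.algebraMap_end_apply, Pi.smul_apply, smul_eq_mul]
    rw [h1, Finset.sum_eq_single i]
    · rw [hTδ, if_pos hix, mul_one]
      exact hjNc _ _ (by rw [hcx, hix])
    · intro k hk hki
      rw [hTδ, if_neg, mul_zero]
      intro h
      rw [hix, hpowinj] at h
      exact hki (Nat.ModEq.eq_of_lt_of_lt h hi (Finset.mem_range.1 hk)).symm
    · intro h
      exact absurd (Finset.mem_range.2 hi) h
  have hQζ : aeval (ζ : ℂ) Q ≠ 0 := by
    intro h0
    apply hχ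
    obtain ⟨D, hD⟩ : ∃ D : ℂ, D = ∑ γ : G, if χ γ = 1 then 1 else 0 := ⟨_, rfl⟩
    have hD0 : D ≠ 0 := by
      rw [hD, Finset.sum_boole]
      refine Nat.cast_ne_zero.2 (Finset.card_pos.2 ⟨1, ?_⟩).ne'
      rw [Finset.mem_filter]
      exact ⟨Finset.mem_univ _, map_one χ⟩
    have hDi : ∀ i : ℕ, (∑ γ : G, if χ γ = ζ ^ i then (1 : ℂ) else 0) = D := by
      intro i
      rw [hD, ← Equiv.sum_comp (Equiv.mulLeft ((⟨g, hg⟩ : G) ^ i))]
      refine Finset.sum_congr rfl fun γ _ => ?_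
      have h1 : χ (Equiv.mulLeft ((⟨g, hg⟩ : G) ^ i) γ) = ζ ^ i * χ γ := by
        rw [Equiv.coe_mulLeft, map_mul, map_pow, hχg]
      rw [h1]
      simp only [mul_eq_left]
    have hB1 : ∑ γ : G, (jN ((γ : Equiv.Perm Ω) x₀) : ℂ) * (χ γ : ℂ) = 0 := by
      have h1 : ∀ γ : G, (jN ((γ : Equiv.Perm Ω) x₀) : ℂ) * (χ γ : ℂ) =
          ∑ i ∈ Finset.range m, (jN ((g ^ i) x₀) : ℂ) * (ζ : ℂ) ^ i *
            (if χ γ = ζ ^ i then (1 : ℂ) else 0) := by
        intro γ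
        obtain ⟨i, hi, hix⟩ := hpow γ
        rw [Finset.sum_eq_single i]
        · rw [if_pos hix, mul_one, hix, Units.val_pow_eq_pow_val]
          congr 2
          apply hjNc
          rw [hcg, hc0, mul_one, hcm γ.1 γ.2, hc0, mul_one]
          exact hix
        · intro k hk hki
          rw [if_neg, mul_zero]
          intro h
          rw [hix, hpowinj] at h
          exact hki (Nat.ModEq.eq_of_lt_of_lt h hi (Finset.mem_range.1 hk)).symm
        · intro h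
          exact absurd (Finset.mem_range.2 hi) h
      rw [Finset.sum_congr rfl fun γ _ => h1 γ, Finset.sum_comm]
      have h2 : ∀ i ∈ Finset.range m, ∑ γ : G, (jN ((g ^ i) x₀) : ℂ) * (ζ : ℂ) ^ i *
          (if χ γ = ζ ^ i then (1 : ℂ) else 0) = ((jN ((g ^ i) x₀) : ℂ) * (ζ : ℂ) ^ i) * D := by
        intro i _
        rw [← Finset.mul_sum, hDi]
      rw [Finset.sum_congr rfl h2, ← Finset.sum_mul]
      have h3 : aeval (ζ : ℂ) Q = ∑ i ∈ Finset.range m, (jN ((g ^ i) x₀) : ℂ) * (ζ : ℂ) ^ i := by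
        change aeval (ζ : ℂ) (∑ i ∈ Finset.range m, C (jN ((g ^ i) x₀)) * X ^ i) = _
        rw [map_sum]
        refine Finset.sum_congr rfl fun i _ => ?_
        rw [map_mul, aeval_C, map_pow, aeval_X]
        rfl
      rw [← h3, h0, zero_mul]
    have hB2 : ∑ γ : G, (jN ((γ : Equiv.Perm Ω) x₀) : ℂ) * (χ γ : ℂ) =
        (N.card : ℂ) * ∑ γ : G, (j ((γ : Equiv.Perm Ω) x₀) : ℂ) * (χ γ : ℂ) := by
      have h1 : ∀ γ : G, (jN ((γ : Equiv.Perm Ω) x₀) : ℂ) * (χ γ : ℂ) =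
          ∑ n ∈ N, (j (((n * γ : G) : Equiv.Perm Ω) x₀) : ℂ) * (χ (n * γ) : ℂ) := by
        intro γ
        rw [hjN]
        push_cast
        rw [Finset.sum_mul]
        refine Finset.sum_congr rfl fun n hn => ?_
        rw [map_mul, (Finset.mem_filter.1 hn).2, one_mul]
        rfl
      rw [Finset.sum_congr rfl fun γ _ => h1 γ, Finset.sum_comm]
      have h2 : ∀ n ∈ N, ∑ γ : G, (j (((n * γ : G) : Equiv.Perm Ω) x₀) : ℂ) * (χ (n * γ) : ℂ) =
          ∑ γ : G, (j ((γ : Equiv.Perm Ω) x₀) : ℂ) * (χ γ : ℂ) := by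
        intro n _
        exact Equiv.sum_comp (Equiv.mulLeft n)
          fun γ : G => (j ((γ : Equiv.Perm Ω) x₀) : ℂ) * (χ γ : ℂ)
      rw [Finset.sum_congr rfl h2, Finset.sum_const, nsmul_eq_mul]
    have hN : (N.card : ℂ) ≠ 0 := by
      refine Nat.cast_ne_zero.2 (Finset.card_pos.2 ⟨1, ?_⟩).ne'
      exact Finset.mem_filter.2 ⟨Finset.mem_univ _, map_one χ⟩
    rw [hB1] at hB2
    exact (mul_eq_zero.1 hB2.symm).resolve_left hN
  have hcop : IsCoprime (cyclotomic m ℚ) Q := by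
    refine (cyclotomic.irreducible_rat hmpos).coprime_iff_not_dvd.2 fun h => hQζ ?_
    obtain ⟨R, hR⟩ := h
    rw [hR, map_mul, cyclotomic_eq_minpoly_rat hζ hmpos, minpoly.aeval, zero_mul]
  obtain ⟨u, v, huv⟩ := hcop
  obtain ⟨w, hw⟩ := dvd_PP hmpos
  have haev : ∀ R : ℚ[X], ∀ f ∈ J, aeval (tr g) R f ∈ J := by
    intro R f hf
    rw [aeval_endomorphism]
    refine J.sum_mem fun i _ => J.smul_mem _ ?_
    have h1 : (tr g ^ i) f = fun x => f ((g ^ i)⁻¹ x) := by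
      funext x
      exact tr_pow g i f x
    rw [h1]
    exact hJ _ (G.inv_mem (G.pow_mem hg i)) f hf
  have hTm : (tr g ^ m) δ = δ := by
    funext x
    rw [hTδ, hδ, hm, pow_orderOf_eq_one]
  have hfJ : aeval (tr g) (PP m) δ ∈ J := by
    have h1 : PP m = PP m * v * Q + u * w * (X ^ m - 1) := by
      linear_combination (-PP m) * huv + u * hw
    rw [h1, map_add, LinearMap.add_apply]
    refine J.add_mem ?_ ?_
    · rw [map_mul, Module.End.mul_apply, hQδ]
      exact haev _ _ hjNJ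
    · rw [map_mul, Module.End.mul_apply, map_sub, map_pow, aeval_X, map_one,
        LinearMap.sub_apply, hTm, Module.End.one_apply, sub_self, map_zero]
      exact J.zero_mem
  have hval : ∀ x, aeval (tr g) (PP m) δ x =
      ∑ S ∈ m.primeFactors.powerset, (-1) ^ S.card * (if c x = ζ ^ ex m S then 1 else 0) := by
    intro x
    rw [PP_eq, map_sum, LinearMap.sum_apply, Finset.sum_apply]
    refine Finset.sum_congr rfl fun S _ => ?_
    have h1 : ((-1 : ℚ[X]) ^ S.card) = C ((-1) ^ S.card) := by simp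
    rw [h1, map_mul, aeval_C, Module.End.mul_apply, map_pow (aeval (tr g)), aeval_X,
      Module.algebraMap_end_apply, Pi.smul_apply, smul_eq_mul, hTδ]
  have huniq : ∀ x, ∀ S ∈ m.primeFactors.powerset, c x = ζ ^ ex m S →
      aeval (tr g) (PP m) δ x = (-1) ^ S.card := by
    intro x S hS hx
    rw [hval, Finset.sum_eq_single S]
    · rw [if_pos hx, mul_one]
    · intro S' hS' hne'
      rw [if_neg, mul_zero]
      intro h
      rw [hx, hpowinj] at h
      exact hne' (ex_inj hmpos.ne' (Finset.mem_powerset.1 hS) (Finset.mem_powerset.1 hS') h).symm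
    · intro h
      exact absurd hS h
  refine ⟨aeval (tr g) (PP m) δ, hfJ, fun h0 => ?_, fun x => ?_⟩
  · have h1 := huniq x₀ ∅ (Finset.empty_mem_powerset _) (by rw [hc0]; simp [ex])
    rw [h0] at h1
    simp at h1
  · by_cases h : ∃ S ∈ m.primeFactors.powerset, c x = ζ ^ ex m S
    · obtain ⟨S, hS, hx⟩ := h
      rw [huniq x S hS hx]
      right
      exact neg_one_pow_eq_or ℚ S.card
    · left
      push Not at h
      rw [hval]
      refine Finset.sum_eq_zero fun S hS => ?_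
      rw [if_neg (h S hS), mul_zero]

end Pool.Agent.T9h38.KS

end
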