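import Pool.Agent.T9h38.KS.FamA
import Pool.Agent.T9h38.KS.Abel

set_option autoImplicit false
set_option linter.unusedSectionVars false
set_option linter.unusedVariables false

/-!
# Families of CM fields whose stable spaces contain functions with values 0, 1, -1: abelian fields and
# fields of degree eight
-/

open Module

noncomputable section

namespace Pool.Agent.T9h38.KS

open Pool.Agent.T9h38.CM

variable {F : Type} [Field F] [NumberField F]

local instance decE'' : DecidableEq (F →+* ℂ) := Classical.decEq _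

/-- The automorphisms of the complex numbers commute on the embeddings. -/
def Abelian (F : Type) [Field F] : Prop :=
  ∀ (τ τ' : ℂ ≃+* ℂ) (φ : F →+* ℂ), (τ : ℂ →+* ℂ).comp ((τ' : ℂ →+* ℂ).comp φ) =
    (τ' : ℂ →+* ℂ).comp ((τ : ℂ →+* ℂ).comp φ)

theorem hasSmall_abelian (h : Abelian F) : HasSmall F := by
  intro J h1 h2 h3
  obtain ⟨φ₀⟩ : Nonempty (F →+* ℂ) := inferInstance
  refine abelian_small (mvHom F).range ?_ φ₀ ?_ ?_ h3
  · rintro _ ⟨τ, rfl⟩ _ ⟨τ', rfl⟩
    ext φ : 1
    exact h τ τ' φ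
  · intro ψ
    obtain ⟨τ, hτ⟩ := exists_move φ₀ ψ
    exact ⟨mvHom F τ, ⟨τ, rfl⟩, hτ⟩
  · rintro _ ⟨τ, rfl⟩ f hf
    exact h1 τ f hf

/-- If the stabilisers of the embeddings are trivial then the field is Galois. -/
theorem isGalois_of (h : ∀ (τ : ℂ ≃+* ℂ) (φ ψ : F →+* ℂ), mv τ φ = φ → mv τ ψ = ψ) :
    IsGalois ℚ F := by
  classical
  obtain ⟨φ⟩ : Nonempty (F →+* ℂ) := inferInstance
  have h1 : ∀ (ψ : F →+* ℂ) (x : F), ∃ y, φ y = ψ x := by
    intro ψ x
    refine mem_range_of_fixed φ ?_ fun τ hτ => ?_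
    · have h2 : IsAlgebraic ℚ x := Algebra.IsAlgebraic.isAlgebraic x
      exact h2.algHom ψ.toRatAlgHom
    · exact congrArg (fun f : F →+* ℂ => f x) (h τ φ ψ hτ)
  choose s hs using h1
  let a : (F →+* ℂ) → (F →ₐ[ℚ] F) := fun ψ =>
    RingHom.toRatAlgHom
      { toFun := s ψ
        map_one' := φ.injective (by rw [hs, map_one, map_one])
        map_mul' := fun x y => φ.injective (by rw [hs, map_mul, map_mul, hs, hs])
        map_zero' := φ.injective (by rw [hs, map_zero, map_zero])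
        map_add' := fun x y => φ.injective (by rw [hs, map_add, map_add, hs, hs]) }
  have ha : ∀ ψ x, φ (a ψ x) = ψ x := fun ψ x => hs ψ x
  have hinj : Function.Injective a := by
    intro ψ ψ' hψ
    ext x
    exact (ha ψ x).symm.trans ((congrArg (fun f : F →ₐ[ℚ] F => φ (f x)) hψ).trans (ha ψ' x))
  have hcard : Fintype.card (F →+* ℂ) ≤ Fintype.card (F →ₐ[ℚ] F) :=
    Fintype.card_le_of_injective a hinj
  rw [NumberField.Embeddings.card F ℂ] at hcard
  have h2 : Fintype.card (F →ₐ[ℚ] F) = Fintype.card (F ≃ₐ[ℚ] F) :=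
    Fintype.card_congr (algEquivEquivAlgHom ℚ F).toEquiv.symm
  apply IsGalois.of_card_aut_eq_finrank
  rw [Nat.card_eq_fintype_card]
  refine le_antisymm ?_ (h2 ▸ hcard)
  exact AlgEquiv.card_le

theorem hasSmall_octic [NumberField.IsCMField F] (hF : finrank ℚ F = 8) (h : ¬IsGalois ℚ F) :
    HasSmall F := by
  apply hasSmall_eight hF
  by_contra hcon
  push Not at hcon
  exact h (isGalois_of fun τ φ ψ hφ => hcon τ φ ψ hφ)

end Pool.Agent.T9h38.KS

end
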