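import Pool.Agent.R918.Mid3
import Pool.Agent.R918.AV

set_option autoImplicit false
set_option linter.unusedSectionVars false
set_option linter.unusedVariables false

/-!
# Weight vectors in algebras of creation and annihilation operators
-/

open Module

noncomputable section

namespace Pool.Agent.T9h38.KS

open Pool.Agent.R918

variable {U : Type} [AddCommGroup U] [Module ℂ U]

section car

variable {J : Type} [DecidableEq J] {a b : J → Module.End ℂ U}

/-- Exchange of the creation and annihilation operators for the indices in a set. -/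
theorem car_swap (h : Car a b) (S : J → Prop) [DecidablePred S] :
    Car (fun p => if S p then b p else a p) (fun p => if S p then a p else b p) := by
  refine ⟨fun p q => ?_, fun p q => ?_, fun p q => ?_⟩
  · by_cases hp : S p <;> by_cases hq : S q
    · simp only [if_pos hp, if_pos hq]
      exact h.bb p q
    · simp only [if_pos hp, if_neg hq]
      have h1 := h.ab q p
      rw [if_neg (fun e : q = p => hq (by rw [e]; exact hp))] at h1
      exact (eq_neg_of_add_eq_zero_right h1)
    · simp only [if_neg hp, if_pos hq]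
      have h1 := h.ab p q
      rw [if_neg (fun e : p = q => hp (by rw [e]; exact hq))] at h1
      exact (eq_neg_of_add_eq_zero_left h1)
    · simp only [if_neg hp, if_neg hq]
      exact h.aa p q
  · by_cases hp : S p <;> by_cases hq : S q
    · simp only [if_pos hp, if_pos hq]
      exact h.aa p q
    · simp only [if_pos hp, if_neg hq]
      have h1 := h.ab p q
      rw [if_neg (fun e : p = q => hq (by rw [← e]; exact hp))] at h1
      exact (eq_neg_of_add_eq_zero_left h1)
    · simp only [if_neg hp, if_pos hq]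
      have h1 := h.ab q p
      rw [if_neg (fun e : q = p => hp (by rw [← e]; exact hq))] at h1
      exact (eq_neg_of_add_eq_zero_right h1)
    · simp only [if_neg hp, if_neg hq]
      exact h.bb p q
  · by_cases hp : S p <;> by_cases hq : S q
    · simp only [if_pos hp, if_pos hq]
      have h1 := h.ab q p
      rw [add_comm, h1]
      by_cases hpq : p = q
      · rw [if_pos hpq, if_pos hpq.symm]
      · rw [if_neg hpq, if_neg (Ne.symm hpq)]
    · simp only [if_pos hp, if_neg hq]
      rw [if_neg (fun e : p = q => hq (by rw [← e]; exact hp)), h.bb p q]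
      exact neg_add_cancel _
    · simp only [if_neg hp, if_pos hq]
      rw [if_neg (fun e : p = q => hp (by rw [e]; exact hq)), h.aa p q]
      exact neg_add_cancel _
    · simp only [if_neg hp, if_neg hq]
      exact h.ab p q

theorem sq_zero (h : Car a b) (p : J) : a p * a p = 0 :=
  LinearMap.ext fun u => h.aasq p u

/-- A creation operator times a product which contains it. -/
theorem mul_prod (h : Car a b) (p : J) : ∀ (L : List J), p ∈ L → a p * (L.map a).prod = 0 := by
  intro L
  induction L with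
  | nil => intro hp; exact absurd hp (List.not_mem_nil)
  | cons q L ih =>
    intro hp
    rw [List.map_cons, List.prod_cons, ← mul_assoc]
    by_cases hpq : p = q
    · rw [hpq, sq_zero h, zero_mul]
    · have h1 : p ∈ L := (List.mem_cons.1 hp).resolve_left hpq
      rw [h.aa p q, neg_mul, mul_assoc, ih h1, mul_zero, neg_zero]

theorem prod_mul (h : Car a b) (p : J) : ∀ (L : List J), p ∈ L → (L.map a).prod * a p = 0 := by
  intro L
  induction L with
  | nil => intro hp; exact absurd hp (List.not_mem_nil)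
  | cons q L ih =>
    intro hp
    rw [List.map_cons, List.prod_cons]
    by_cases h1 : p ∈ L
    · rw [mul_assoc, ih h1, mul_zero]
    · have hpq : p = q := (List.mem_cons.1 hp).resolve_right h1
      subst hpq
      have h2 : ∀ L' : List J, ∃ c : ℂ, (L'.map a).prod * a p = c • (a p * (L'.map a).prod) := by
        intro L'
        induction L' with
        | nil => exact ⟨1, by simp⟩
        | cons r L' ih' =>
          obtain ⟨c, hc⟩ := ih'
          refine ⟨-c, ?_⟩
          rw [List.map_cons, List.prod_cons, mul_assoc, hc, mul_smul_comm, ← mul_assoc,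
            h.aa r p, neg_mul, smul_neg, neg_smul, mul_assoc]
      obtain ⟨c, hc⟩ := h2 L
      rw [mul_assoc, hc, mul_smul_comm, ← mul_assoc, sq_zero h, zero_mul, smul_zero]

/-- An annihilation operator and a product without the creation operator. -/
theorem b_prod (h : Car a b) (p : J) : ∀ (L : List J), p ∉ L →
    ∃ c : ℂ, b p * (L.map a).prod = c • ((L.map a).prod * b p) := by
  intro L
  induction L with
  | nil => intro _; exact ⟨1, by simp⟩
  | cons q L ih =>
    intro hp
    rw [List.mem_cons, not_or] at hp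
    obtain ⟨c, hc⟩ := ih hp.2
    refine ⟨-c, ?_⟩
    have h1 := h.ab q p
    rw [if_neg (Ne.symm hp.1)] at h1
    have h2 : b p * a q = -(a q * b p) := eq_neg_of_add_eq_zero_right h1
    rw [List.map_cons, List.prod_cons, ← mul_assoc, h2, neg_mul, mul_assoc, hc, mul_smul_comm,
      neg_smul, mul_assoc]

theorem prod_ne_zero [Nontrivial U] (h : Car a b) : ∀ (L : List J), L.Nodup →
    (L.map a).prod ≠ 0 := by
  intro L
  induction L with
  | nil => intro _; simp
  | cons q L ih =>
    intro hL h0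
    rw [List.nodup_cons] at hL
    refine ih hL.2 ?_
    rw [List.map_cons, List.prod_cons] at h0
    obtain ⟨c, hc⟩ := b_prod h q L hL.1
    have h1 := h.ab q q
    rw [if_pos rfl] at h1
    calc (L.map a).prod = (a q * b q + b q * a q) * (L.map a).prod := by rw [h1, one_mul]
      _ = a q * (b q * (L.map a).prod) + b q * (a q * (L.map a).prod) := by
        rw [add_mul, mul_assoc, mul_assoc]
      _ = 0 := by
        rw [hc, h0, mul_zero, mul_smul_comm, ← mul_assoc, h0, zero_mul, smul_zero, add_zero]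

/-- `a p * b q` commutes with the products which contain neither `p` nor `q`. -/
theorem comm_prod (h : Car a b) {p q : J} : ∀ (L : List J), p ∉ L → q ∉ L →
    a p * b q * (L.map a).prod = (L.map a).prod * (a p * b q) := by
  intro L
  induction L with
  | nil => intro _ _; simp
  | cons r L ih =>
    intro hp hq
    rw [List.mem_cons, not_or] at hp hq
    have h1 := h.ab r q
    rw [if_neg (Ne.symm hq.1)] at h1
    have h2 : b q * a r = -(a r * b q) := eq_neg_of_add_eq_zero_right h1
    have h3 : a p * b q * a r = a r * (a p * b q) := by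
      rw [mul_assoc, h2, mul_neg, ← mul_assoc, h.aa p r, neg_mul, neg_neg, mul_assoc]
    rw [List.map_cons, List.prod_cons, ← mul_assoc, h3, mul_assoc, ih hp.2 hq.2, mul_assoc]

theorem comm_prod' (h : Car a b) {p q : J} : ∀ (L : List J), p ∉ L → q ∉ L →
    b p * a q * (L.map a).prod = (L.map a).prod * (b p * a q) := by
  intro L hp hq
  have h1 := h.ab q p
  have h2 : b p * a q = (if q = p then (1 : Module.End ℂ U) else 0) - a q * b p := by
    rw [← h1]
    abel
  rw [h2, sub_mul, mul_sub, comm_prod h L hq hp]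
  congr 1
  split_ifs
  · rw [one_mul, mul_one]
  · rw [zero_mul, mul_zero]

end car

/-! ### Weight vectors -/

variable {k n : ℕ} {a b : Fin k × Fin n → Module.End ℂ U}

/-- The weight vector: the product of all `a (σ, i)` with `f σ = 1` and all `b (σ, i)` with
`f σ = -1`. -/
def wv (a b : Fin k × Fin n → Module.End ℂ U) (f : Fin k → ℤ) : Module.End ℂ U :=
  (((Finset.univ : Finset (Fin k × Fin n)).toList.filter fun p => decide (f p.1 ≠ 0)).map
    fun p => if f p.1 = -1 then b p else a p).prod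

theorem wv_ne_zero [Nontrivial U] (h : Car a b) (f : Fin k → ℤ) : wv a b f ≠ 0 :=
  prod_ne_zero (car_swap h fun p : Fin k × Fin n => f p.1 = -1) _
    ((Finset.nodup_toList _).filter _)

theorem wv_single (h : Car a b) {f : Fin k → ℤ} (hf : ∀ σ, f σ = 1 ∨ f σ = -1 ∨ f σ = 0)
    (p q : Fin k × Fin n) (hpq : p.1 = q.1) :
    a p * b q * wv a b f - wv a b f * (a p * b q) =
      (if p = q then (f p.1 : ℂ) else 0) • wv a b f := by
  have hc := car_swap h fun p : Fin k × Fin n => f p.1 = -1
  obtain ⟨L, hL⟩ : ∃ L, L = (Finset.univ : Finset (Fin k × Fin n)).toList.filter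
    fun p => decide (f p.1 ≠ 0) := ⟨_, rfl⟩
  have hmem : ∀ p, p ∈ L ↔ f p.1 ≠ 0 := by
    intro p
    rw [hL, List.mem_filter, Finset.mem_toList]
    simp
  obtain ⟨a', ha'⟩ : ∃ a' : Fin k × Fin n → Module.End ℂ U,
    a' = fun p => if f p.1 = -1 then b p else a p := ⟨_, rfl⟩
  obtain ⟨b', hb'⟩ : ∃ b' : Fin k × Fin n → Module.End ℂ U,
    b' = fun p => if f p.1 = -1 then a p else b p := ⟨_, rfl⟩
  rw [← ha', ← hb'] at hc
  have hw : wv a b f = (L.map a').prod := by
    unfold wv
    rw [← hL, ← ha']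
  rw [hw]
  rcases hf p.1 with h1 | h1 | h1
  · have e1 : a' p = a p := by rw [ha']; simp [h1]
    have e2 : b' q = b q := by rw [hb']; simp [← hpq, h1]
    have hp : p ∈ L := (hmem p).2 (by rw [h1]; decide)
    rw [← e1, ← e2]
    have h2 := hc.ab p q
    have h3 : a' p * b' q = (if p = q then (1 : Module.End ℂ U) else 0) - b' q * a' p := by
      rw [← h2]; abel
    have h4 : (L.map a').prod * (a' p * b' q) = 0 := by
      rw [← mul_assoc, prod_mul hc p L hp, zero_mul]
    rw [h4, h3, sub_zero, sub_mul, mul_assoc, mul_prod hc p L hp, mul_zero, sub_zero, h1]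
    split_ifs
    · rw [one_mul, Int.cast_one, one_smul]
    · rw [zero_mul, zero_smul]
  · have e1 : b' p = a p := by rw [hb']; simp [h1]
    have e2 : a' q = b q := by rw [ha']; simp [← hpq, h1]
    have hq : q ∈ L := (hmem q).2 (by rw [← hpq, h1]; decide)
    rw [← e1, ← e2]
    have h2 := hc.ab q p
    have h3 : b' p * a' q = (if q = p then (1 : Module.End ℂ U) else 0) - a' q * b' p := by
      rw [← h2]; abel
    have h4 : b' p * a' q * (L.map a').prod = 0 := by
      rw [mul_assoc, mul_prod hc q L hq, mul_zero]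
    rw [h4, h3, zero_sub, mul_sub, ← mul_assoc, prod_mul hc q L hq, zero_mul, sub_zero, h1]
    by_cases hpq' : p = q
    · rw [if_pos hpq', if_pos hpq'.symm, mul_one]
      push_cast
      rw [neg_smul, one_smul]
    · rw [if_neg hpq', if_neg (Ne.symm hpq'), mul_zero, neg_zero, zero_smul]
  · have e1 : a' p = a p := by rw [ha']; simp [h1]
    have e2 : b' q = b q := by rw [hb']; simp [← hpq, h1]
    rw [← e1, ← e2, comm_prod hc L (fun h' => (hmem p).1 h' h1)
      (fun h' => (hmem q).1 h' (by rw [← hpq, h1])), sub_self, h1]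
    split_ifs
    · rw [Int.cast_zero, zero_smul]
    · rw [zero_smul]

theorem wv_rho (h : Car a b) {f : Fin k → ℤ} (hf : ∀ σ, f σ = 1 ∨ f σ = -1 ∨ f σ = 0)
    {M : Matrix (Fin k × Fin n) (Fin k × Fin n) ℂ} (hM : IsBD M) :
    rho a b M * wv a b f - wv a b f * rho a b M = (∑ σ, (f σ : ℂ) * btr σ M) • wv a b f := by
  have h0 : rho a b M = ∑ p, ∑ q, M p q • (a p * b q) := rfl
  rw [h0, Finset.sum_mul, Finset.mul_sum, ← Finset.sum_sub_distrib]
  have h1 : ∀ p : Fin k × Fin n, (∑ q, M p q • (a p * b q)) * wv a b f -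
      wv a b f * (∑ q, M p q • (a p * b q)) = (M p p * (f p.1 : ℂ)) • wv a b f := by
    intro p
    rw [Finset.sum_mul, Finset.mul_sum, ← Finset.sum_sub_distrib, Finset.sum_eq_single p]
    · rw [smul_mul_assoc, mul_smul_comm, ← smul_sub, wv_single h hf p p rfl, if_pos rfl, smul_smul]
    · intro q _ hq
      rw [smul_mul_assoc, mul_smul_comm, ← smul_sub]
      by_cases hpq : p.1 = q.1
      · rw [wv_single h hf p q hpq, if_neg (Ne.symm hq), zero_smul, smul_zero]
      · rw [hM p q hpq, zero_smul]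
    · intro h; exact absurd (Finset.mem_univ _) h
  rw [Finset.sum_congr rfl fun p _ => h1 p, ← Finset.sum_smul, Fintype.sum_prod_type]
  congr 1
  refine Finset.sum_congr rfl fun σ _ => ?_
  rw [btr_sum, Finset.mul_sum]
  exact Finset.sum_congr rfl fun i _ => mul_comm _ _

theorem wv_rhoh (h : Car a b) {f : Fin k → ℤ} (hf : ∀ σ, f σ = 1 ∨ f σ = -1 ∨ f σ = 0)
    {M : Matrix (Fin k × Fin n) (Fin k × Fin n) ℂ} (hM : IsBD M) :
    rhoh a b M * wv a b f - wv a b f * rhoh a b M = (∑ σ, (f σ : ℂ) * btr σ M) • wv a b f := by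
  rw [← wv_rho h hf hM, rhoh_eq, sub_mul, mul_sub, smul_mul_assoc, mul_smul_comm, one_mul, mul_one]
  abel

/-- The weight vector commutes with the brackets. -/
theorem wv_bracket (h : Car a b) {f : Fin k → ℤ} (hf : ∀ σ, f σ = 1 ∨ f σ = -1 ∨ f σ = 0)
    {x y : Module.End ℂ U} (hx : x ∈ glC a b) (hy : y ∈ glC a b) :
    (x * y - y * x) * wv a b f = wv a b f * (x * y - y * x) := by
  obtain ⟨M, hM, rfl⟩ := (glC_iff h x).1 hx
  obtain ⟨N, hN, rfl⟩ := (glC_iff h y).1 hy
  have h1 : rhoh a b M * rhoh a b N - rhoh a b N * rhoh a b M = rho a b (M * N - N * M) := by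
    rw [rho_bracket h, rhoh_eq, rhoh_eq]
    simp only [sub_mul, mul_sub, smul_mul_assoc, mul_smul_comm, one_mul, mul_one]
    module
  rw [h1]
  have h2 := wv_rho h hf ((hM.mul hN).sub (hN.mul hM))
  rw [Finset.sum_eq_zero fun σ _ => by rw [btr_bracket σ hM hN, mul_zero], zero_smul] at h2
  exact sub_eq_zero.1 h2

/-! ### The centre -/

/-- The central element of a colour. -/
def NN (a b : Fin k × Fin n → Module.End ℂ U) (σ : Fin k) : Module.End ℂ U :=
  ∑ i : Fin n, (a (σ, i) * b (σ, i) - b (σ, i) * a (σ, i))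

theorem NN_eq (h : Car a b) (σ : Fin k) : NN a b σ = (2 : ℂ) • nn a b σ - (n : ℂ) • 1 := by
  have h1 := nn_swap h σ
  unfold NN
  rw [Finset.sum_sub_distrib]
  change nn a b σ - nn b a σ = _
  rw [h1]
  module

theorem NN_rhoh (h : Car a b) (σ : Fin k) : NN a b σ = (2 : ℂ) • rhoh a b (pj k n σ) := by
  rw [NN_eq h, rhoh_eq, rho_pj]
  have h1 : (pj k n σ).trace = n := by
    unfold pj
    rw [Matrix.trace_diagonal, Fintype.sum_prod_type, Finset.sum_eq_single σ]
    · simp
    · intro τ _ hτ
      simp [hτ]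
    · intro h; exact absurd (Finset.mem_univ _) h
  rw [h1]
  module

theorem btr_pj (σ τ : Fin k) : btr τ (pj k n σ) = if τ = σ then (n : ℂ) else 0 := by
  rw [btr_sum]
  unfold pj
  by_cases h : τ = σ
  · simp [h]
  · simp [h]

theorem wv_NN (h : Car a b) {f : Fin k → ℤ} (hf : ∀ σ, f σ = 1 ∨ f σ = -1 ∨ f σ = 0)
    (σ : Fin k) :
    NN a b σ * wv a b f - wv a b f * NN a b σ = (2 * n * (f σ : ℂ)) • wv a b f := by
  rw [NN_rhoh h, smul_mul_assoc, mul_smul_comm, ← smul_sub, wv_rhoh h hf (isBD_pj σ), smul_smul]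
  congr 1
  rw [Finset.sum_eq_single σ]
  · rw [btr_pj, if_pos rfl]
    ring
  · intro τ _ hτ
    rw [btr_pj, if_neg hτ, mul_zero]
  · intro h; exact absurd (Finset.mem_univ _) h

theorem wv_sum (h : Car a b) {f : Fin k → ℤ} (hf : ∀ σ, f σ = 1 ∨ f σ = -1 ∨ f σ = 0)
    (c : Fin k → ℂ) :
    (∑ σ, c σ • NN a b σ) * wv a b f - wv a b f * (∑ σ, c σ • NN a b σ) =
      (2 * n * ∑ σ, (f σ : ℂ) * c σ) • wv a b f := by
  rw [Finset.sum_mul, Finset.mul_sum, ← Finset.sum_sub_distrib, Finset.mul_sum, Finset.sum_smul]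
  refine Finset.sum_congr rfl fun σ _ => ?_
  rw [smul_mul_assoc, mul_smul_comm, ← smul_sub, wv_NN h hf, smul_smul]
  congr 1
  ring

/-- An element of the Lie algebra which commutes with all `a b` of the same colour is a combination
of the central elements. -/
theorem exists_coeff [Nontrivial U] (h : Car a b) {x : Module.End ℂ U} (hx : x ∈ glC a b)
    (hc : ∀ σ i j, x * (a (σ, i) * b (σ, j)) = a (σ, i) * b (σ, j) * x) :
    ∃ c : Fin k → ℂ, x = ∑ σ, c σ • NN a b σ := by
  obtain ⟨M, hM, rfl⟩ := (glC_iff h x).1 hx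
  have hinj : ∀ C : Matrix (Fin k × Fin n) (Fin k × Fin n) ℂ, rho a b C = 0 → C = 0 := by
    intro C hC
    ext s r
    have h1 := (der_rho h C).ra r
    rw [hC, zero_mul, mul_zero, zero_add] at h1
    have h2 : (∑ p, C p r • a p) * b s + b s * (∑ p, C p r • a p) = C s r • 1 := by
      rw [Finset.sum_mul, Finset.mul_sum, ← Finset.sum_add_distrib, Finset.sum_eq_single s]
      · rw [smul_mul_assoc, mul_smul_comm, ← smul_add, h.ab, if_pos rfl]
      · intro p _ hp
        rw [smul_mul_assoc, mul_smul_comm, ← smul_add, h.ab, if_neg hp, smul_zero]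
      · intro h; exact absurd (Finset.mem_univ _) h
    rw [← h1, zero_mul, mul_zero, add_zero] at h2
    exact (smul_eq_zero.1 h2.symm).resolve_right one_ne_zero
  have h1 : ∀ (σ : Fin k) (i j : Fin n), M * Matrix.single (σ, i) (σ, j) 1 =
      Matrix.single (σ, i) (σ, j) 1 * M := by
    intro σ i j
    rw [← sub_eq_zero]
    apply hinj
    have h2 : rho a b (Matrix.single ((σ, i) : Fin k × Fin n) (σ, j) 1) = a (σ, i) * b (σ, j) := by
      refine LinearMap.ext fun u => ?_
      rw [rho_single, one_smul]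
      rfl
    have h3 := hc σ i j
    rw [rho_bracket h, h2]
    rw [rhoh_eq, sub_mul, mul_sub, smul_mul_assoc, mul_smul_comm, one_mul, mul_one] at h3
    exact sub_eq_zero.2 (sub_left_injective h3)
  have h2 : ∀ (σ : Fin k) (i j : Fin n), M (σ, i) (σ, i) = M (σ, j) (σ, j) := by
    intro σ i j
    have h3 := congrFun (congrFun (h1 σ i j) (σ, i)) (σ, j)
    rw [Matrix.mul_single_apply_same, Matrix.single_mul_apply_same, mul_one, one_mul] at h3
    exact h3
  have h3 : ∀ (p q : Fin k × Fin n), p ≠ q → M p q = 0 := by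
    intro p q hpq
    have h4 := congrFun (congrFun (h1 q.1 q.2 q.2) p) q
    rw [Matrix.mul_single_apply_same, Matrix.single_mul_apply_of_ne, mul_one] at h4
    · exact h4
    · exact hpq
  by_cases hn : n = 0
  · refine ⟨0, ?_⟩
    have : IsEmpty (Fin k × Fin n) := by
      subst hn
      infer_instance
    have h4 : M = 0 := Subsingleton.elim _ _
    rw [h4, map_zero]
    simp
  · have hn' : 0 < n := Nat.pos_of_ne_zero hn
    refine ⟨fun σ => 2⁻¹ * M (σ, ⟨0, hn'⟩) (σ, ⟨0, hn'⟩), ?_⟩
    have h4 : M = ∑ σ, M (σ, ⟨0, hn'⟩) (σ, ⟨0, hn'⟩) • pj k n σ := by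
      ext p q
      rw [Matrix.sum_apply, Finset.sum_eq_single p.1]
      · unfold pj
        rw [Matrix.smul_apply, Matrix.diagonal_apply]
        by_cases hpq : p = q
        · subst hpq
          rw [if_pos rfl, if_pos rfl, smul_eq_mul, mul_one]
          exact h2 p.1 p.2 _
        · rw [if_neg hpq, smul_zero, h3 p q hpq]
      · intro σ _ hσ
        unfold pj
        rw [Matrix.smul_apply, Matrix.diagonal_apply]
        by_cases hpq : p = q
        · rw [if_pos hpq, if_neg (Ne.symm hσ), smul_zero]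
        · rw [if_neg hpq, smul_zero]
      · intro h; exact absurd (Finset.mem_univ _) h
    conv_lhs => rw [h4]
    rw [map_sum]
    refine Finset.sum_congr rfl fun σ _ => ?_
    rw [map_smul, NN_rhoh h, smul_smul]
    congr 1
    ring

/-- The eigenvalues of the combinations of the central elements, if the coefficients are linearly
independent. -/
theorem eigen (h : Car a b) {e : Fin k → ℂ}
    (he : ∀ m : Fin k → ℤ, ∑ σ, (m σ : ℂ) * e σ = 0 → m = 0) {v : U} (hv : v ≠ 0) {x : ℂ}
    (hx : (∑ σ, e σ • NN a b σ) v = x • v) :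
    ∃ m : Fin k → ℤ, x = ∑ σ, (m σ : ℂ) * e σ ∧ ∀ σ, NN a b σ v = (m σ : ℂ) • v := by
  classical
  obtain ⟨X, hXdef⟩ : ∃ X : Module.End ℂ U, X = ∑ σ, e σ • NN a b σ := ⟨_, rfl⟩
  rw [← hXdef] at hx
  let ξ : (Fin k → Fin (n + 1)) → ℂ := fun c => ∑ σ, ((2 * (c σ : ℕ) - n : ℤ) : ℂ) * e σ
  have hNN : ∀ (w : U) (c : Fin k → Fin (n + 1)), (∀ σ, nn a b σ w = ((c σ : ℕ) : ℂ) • w) →
      ∀ σ, NN a b σ w = ((2 * (c σ : ℕ) - n : ℤ) : ℂ) • w := by
    intro w c hw σ
    rw [NN_eq h, LinearMap.sub_apply, LinearMap.smul_apply, hw, LinearMap.smul_apply,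
      Module.End.one_apply]
    push_cast
    module
  have hXw : ∀ (w : U) (c : Fin k → Fin (n + 1)), (∀ σ, nn a b σ w = ((c σ : ℕ) : ℂ) • w) →
      X w = ξ c • w := by
    intro w c hw
    rw [hXdef, LinearMap.sum_apply, Finset.sum_smul]
    refine Finset.sum_congr rfl fun σ _ => ?_
    rw [LinearMap.smul_apply, hNN w c hw, smul_smul, mul_comm]
  have hinj : ∀ c d, ξ c = ξ d → c = d := by
    intro c d hcd
    have h1 := he (fun σ => 2 * (c σ : ℕ) - 2 * (d σ : ℕ)) (by
      have h2 : ∑ σ, ((2 * (c σ : ℕ) - n : ℤ) : ℂ) * e σ =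
        ∑ σ, ((2 * (d σ : ℕ) - n : ℤ) : ℂ) * e σ := hcd
      rw [← sub_eq_zero, ← Finset.sum_sub_distrib] at h2
      rw [← h2]
      refine Finset.sum_congr rfl fun σ _ => ?_
      push_cast
      ring)
    funext σ
    have h2 : (2 * (c σ : ℕ) - 2 * (d σ : ℕ) : ℤ) = 0 := congrFun h1 σ
    apply Fin.ext
    omega
  let P : Polynomial ℂ := ∏ c ∈ Finset.univ.filter (fun c : Fin k → Fin (n + 1) => ξ c ≠ x),
    (Polynomial.X - Polynomial.C (ξ c))
  have hPx : P.eval x ≠ 0 := by
    rw [Polynomial.eval_prod]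
    refine Finset.prod_ne_zero_iff.2 fun c hc => ?_
    rw [Polynomial.eval_sub, Polynomial.eval_X, Polynomial.eval_C]
    exact sub_ne_zero.2 (Ne.symm (Finset.mem_filter.1 hc).2)
  have hP0 : ∀ c, ξ c ≠ x → P.eval (ξ c) = 0 := by
    intro c hc
    rw [Polynomial.eval_prod]
    refine Finset.prod_eq_zero (Finset.mem_filter.2 ⟨Finset.mem_univ c, hc⟩) ?_
    rw [Polynomial.eval_sub, Polynomial.eval_X, Polynomial.eval_C, sub_self]
  have h1 : ∀ u : U, Polynomial.aeval X P u ∈ Submodule.span ℂ
      {w : U | ∃ c : Fin k → Fin (n + 1), ξ c = x ∧ ∀ σ, nn a b σ w = ((c σ : ℕ) : ℂ) • w} := by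
    intro u
    induction nn_span h u using Submodule.span_induction with
    | mem w hw =>
      choose c hc hw using hw
      have hw' : ∀ σ, nn a b σ w = (((⟨c σ, Nat.lt_succ_of_le (hc σ)⟩ : Fin (n + 1)) : ℕ) : ℂ) • w :=
        hw
      rw [aeval_eig (hXw w (fun σ => ⟨c σ, Nat.lt_succ_of_le (hc σ)⟩) hw')]
      by_cases hcx : ξ (fun σ => ⟨c σ, Nat.lt_succ_of_le (hc σ)⟩) = x
      · exact Submodule.smul_mem _ _ (Submodule.subset_span ⟨_, hcx, hw'⟩)
      · rw [hP0 _ hcx, zero_smul]
        exact Submodule.zero_mem _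
    | zero => rw [map_zero]; exact Submodule.zero_mem _
    | add v w _ _ hv hw => rw [map_add]; exact Submodule.add_mem _ hv hw
    | smul r v _ hv => rw [map_smul]; exact Submodule.smul_mem _ r hv
  have h2 : v ∈ Submodule.span ℂ
      {w : U | ∃ c : Fin k → Fin (n + 1), ξ c = x ∧ ∀ σ, nn a b σ w = ((c σ : ℕ) : ℂ) • w} := by
    have h3 := h1 v
    rw [aeval_eig hx] at h3
    exact (Submodule.smul_mem_iff _ hPx).1 h3
  obtain ⟨c, hc⟩ : ∃ c, ξ c = x := by
    by_contra hne
    push Not at hne
    apply hv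
    have h3 : {w : U | ∃ c : Fin k → Fin (n + 1), ξ c = x ∧
        ∀ σ, nn a b σ w = ((c σ : ℕ) : ℂ) • w} = ∅ := by
      ext w
      simp only [Set.mem_ofPred_eq, Set.mem_empty_iff_false, iff_false]
      rintro ⟨c, hc, _⟩
      exact hne c hc
    rw [h3, Submodule.span_empty, Submodule.mem_bot] at h2
    exact h2
  have h4 : ∀ u ∈ Submodule.span ℂ {w : U | ∃ c : Fin k → Fin (n + 1), ξ c = x ∧
      ∀ σ, nn a b σ w = ((c σ : ℕ) : ℂ) • w}, ∀ σ, nn a b σ u = ((c σ : ℕ) : ℂ) • u := by
    intro u hu σ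
    induction hu using Submodule.span_induction with
    | mem w hw =>
      obtain ⟨d, hd, hw⟩ := hw
      rw [hw σ, hinj d c (hd.trans hc.symm)]
    | zero => rw [map_zero, smul_zero]
    | add v w _ _ hv hw => rw [map_add, hv, hw, smul_add]
    | smul r v _ hv => rw [map_smul, hv, smul_comm]
  have h3 : ∀ σ, nn a b σ v = ((c σ : ℕ) : ℂ) • v := h4 v h2
  refine ⟨fun σ => 2 * (c σ : ℕ) - n, ?_, hNN v c h3⟩
  rw [← hc]

end Pool.Agent.T9h38.KS

end
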