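import Pool.Agent.T9h38.KS.Num
import Pool.Agent.T9h38.KS.Weight
import Pool.Agent.R918.Tor

set_option autoImplicit false
set_option linter.unusedSectionVars false
set_option linter.unusedVariables false

/-!
# The centre of the Lie algebra of the Hodge group of a Kuga-Satake variety of unitary type
-/

open Module Function TensorProduct

noncomputable section

namespace Pool.Agent.T9h38.KS

open Pool.Agent.R918 Pool.Agent.T9h38.CM
open Pool.Agent.Y102 Pool.Agent.W516.DR Pool.Agent.H204R3.GP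

variable {g : ℕ} {A : AbVar g} {k n : ℕ}
  {a b : Fin k × Fin n → Module.End ℂ (ℂ ⊗[ℚ] A.H1)}
  {F : Type} [Field F] [NumberField F] [NumberField.IsCMField F]

/-- The hypothesis. -/
structure Dat (A : AbVar g) (F : Type) [Field F] [NumberField F] [NumberField.IsCMField F]
    (a b : Fin k × Fin n → Module.End ℂ (ℂ ⊗[ℚ] A.H1)) (e : Fin k → (F →+* ℂ)) : Prop where
  car : Car a b
  half : Half e
  le : cx A.NA ≤ glC a b
  gen : ∀ σ i j, a (σ, i) * b (σ, j) ∈ Algebra.adjoin ℂ (cx A.NA : Set _)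
  cen : ∀ x : F, NumberField.IsCMField.complexConj F x = -x →
    ∃ X ∈ A.NA, (X.baseChange ℂ : Module.End ℂ (ℂ ⊗[ℚ] A.H1)) = ∑ σ, e σ x • NN a b σ

variable {e : Fin k → (F →+* ℂ)}

theorem adjoin_comm {R : Type} [Ring R] [Algebra ℂ R] {S : Set R} {x : R}
    (h : ∀ y ∈ S, x * y = y * x) {z : R} (hz : z ∈ Algebra.adjoin ℂ S) : x * z = z * x := by
  induction hz using Algebra.adjoin_induction with
  | mem y hy => exact h y hy
  | algebraMap r => exact (Algebra.commutes r x).symm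
  | add y z _ _ hy hz => rw [mul_add, add_mul, hy, hz]
  | mul y z _ _ hy hz => rw [← mul_assoc, hy, mul_assoc, hz, mul_assoc]

/-- The elements of the centre. -/
theorem Dat.exists_elt [Nontrivial (ℂ ⊗[ℚ] A.H1)] (h : Dat A F a b e) {X : Module.End ℚ A.H1}
    (hX : X ∈ A.CN) : ∃ x : F, NumberField.IsCMField.complexConj F x = -x ∧
      (X.baseChange ℂ : Module.End ℂ (ℂ ⊗[ℚ] A.H1)) = ∑ σ, e σ x • NN a b σ := by
  obtain ⟨c, hc⟩ := exists_coeff h.car (h.le (bc_mem hX.1)) fun σ i j => by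
    refine adjoin_comm (fun y hy => ?_) (h.gen σ i j)
    refine cx_comm (fun Y hY => ?_) y hy
    rw [← bc_mul, ← bc_mul, hX.2 Y hY]
  let S : Submodule ℚ (Module.End ℚ A.H1) :=
    { carrier := {Y | ∃ x : F, NumberField.IsCMField.complexConj F x = -x ∧
        (Y.baseChange ℂ : Module.End ℂ (ℂ ⊗[ℚ] A.H1)) = ∑ σ, e σ x • NN a b σ}
      zero_mem' := ⟨0, by simp, by simp⟩
      add_mem' := by
        rintro Y Z ⟨x, h1, h2⟩ ⟨y, h3, h4⟩
        refine ⟨x + y, by rw [map_add, h1, h3]; ring, ?_⟩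
        rw [LinearMap.baseChange_add, h2, h4, ← Finset.sum_add_distrib]
        refine Finset.sum_congr rfl fun σ _ => ?_
        rw [map_add, add_smul]
      smul_mem' := by
        rintro q Y ⟨x, h1, h2⟩
        refine ⟨q • x, ?_, ?_⟩
        · rw [map_rat_smul, h1, smul_neg]
        · rw [LinearMap.baseChange_smul, h2, Finset.smul_sum]
          refine Finset.sum_congr rfl fun σ _ => ?_
          rw [map_rat_smul, smul_assoc] }
  have hS : X ∈ S := by
    refine mem_of_bc ?_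
    rw [hc]
    have h1 : ∀ v ∈ Submodule.span ℂ {v : Fin k → ℂ | ∃ x : F,
        NumberField.IsCMField.complexConj F x = -x ∧ v = fun σ => e σ x},
        (∑ σ, v σ • NN a b σ : Module.End ℂ (ℂ ⊗[ℚ] A.H1)) ∈ cx S := by
      intro v hv
      induction hv using Submodule.span_induction with
      | mem v hv =>
        obtain ⟨x, hx, rfl⟩ := hv
        obtain ⟨Y, hY, hYx⟩ := h.cen x hx
        rw [← hYx]
        exact bc_mem ⟨x, hx, hYx⟩
      | zero => simp
      | add v w _ _ hv hw =>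
        have h2 : (∑ σ, (v + w) σ • NN a b σ : Module.End ℂ (ℂ ⊗[ℚ] A.H1)) =
            ∑ σ, v σ • NN a b σ + ∑ σ, w σ • NN a b σ := by
          rw [← Finset.sum_add_distrib]
          refine Finset.sum_congr rfl fun σ _ => ?_
          rw [Pi.add_apply, add_smul]
        rw [h2]
        exact Submodule.add_mem _ hv hw
      | smul r v _ hv =>
        have h2 : (∑ σ, (r • v) σ • NN a b σ : Module.End ℂ (ℂ ⊗[ℚ] A.H1)) =
            r • ∑ σ, v σ • NN a b σ := by
          rw [Finset.smul_sum]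
          refine Finset.sum_congr rfl fun σ _ => ?_
          rw [Pi.smul_apply, smul_eq_mul, mul_smul]
        rw [h2]
        exact Submodule.smul_mem _ r hv
    exact h1 c (by rw [h.half.span]; trivial)
  exact hS

/-- The relations with coefficients `0, 1, -1` between the eigenvalues of a generating element. -/
theorem Dat.no_small [Nontrivial (ℂ ⊗[ℚ] A.H1)] (hn : n ≠ 0) (h : Dat A F a b e)
    {X : Module.End ℚ A.H1} {x : F}
    (hXx : (X.baseChange ℂ : Module.End ℂ (ℂ ⊗[ℚ] A.H1)) = ∑ σ, e σ x • NN a b σ)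
    (hgen : ∀ T : Module.End ℚ A.H1,
      (∀ Y ∈ A.NA, ∀ Z ∈ A.NA, T * (Y * Z - Z * Y) = (Y * Z - Z * Y) * T) → T * X = X * T →
      ∀ Z ∈ A.CN, T * Z = Z * T) {f : Fin k → ℤ} (hf : ∀ σ, f σ = 1 ∨ f σ = -1 ∨ f σ = 0)
    (hrel : ∑ σ, (f σ : ℂ) * e σ x = 0) : f = 0 := by
  have hY0 : wv a b f ≠ 0 := wv_ne_zero h.car f
  have hX : (X.baseChange ℂ : Module.End ℂ (ℂ ⊗[ℚ] A.H1)) * wv a b f =
      wv a b f * X.baseChange ℂ := by
    have h1 := wv_sum h.car hf (fun σ => e σ x)
    rw [hrel, mul_zero, zero_smul] at h1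
    rw [hXx]
    exact sub_eq_zero.1 h1
  have hbr : ∀ Y ∈ A.NA, ∀ Z ∈ A.NA, wv a b f * (Y * Z - Z * Y).baseChange ℂ =
      (Y * Z - Z * Y).baseChange ℂ * wv a b f := by
    intro Y hY Z hZ
    rw [bc_br]
    exact (wv_bracket h.car hf (h.le (bc_mem hY)) (h.le (bc_mem hZ))).symm
  have hcen : ∀ Z ∈ A.CN, wv a b f * Z.baseChange ℂ = Z.baseChange ℂ * wv a b f := by
    intro Z hZ
    rw [← comm_iff]
    intro lam
    refine hgen _ (fun Y hY Y' hY' => ?_) ?_ Z hZ
    · exact (comm_iff _ _).2 (hbr Y hY Y' hY') lam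
    · exact (comm_iff _ _).2 hX.symm lam
  have h2 : (fun σ => (f σ : ℂ)) = 0 := by
    refine h.half.dedekind _ fun y hy => ?_
    obtain ⟨Z, hZ, hZy⟩ := h.cen y hy
    have hZC : Z ∈ A.CN := by
      refine ⟨hZ, fun Y hY => ?_⟩
      have h3 : (Y.baseChange ℂ : Module.End ℂ (ℂ ⊗[ℚ] A.H1)) * Z.baseChange ℂ =
          Z.baseChange ℂ * Y.baseChange ℂ := by
        obtain ⟨M, hM, hYM⟩ := (glC_iff h.car _).1 (h.le (bc_mem hY))
        rw [hZy, hYM, Finset.mul_sum, Finset.sum_mul]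
        refine Finset.sum_congr rfl fun σ _ => ?_
        rw [mul_smul_comm, smul_mul_assoc, NN_rhoh h.car, mul_smul_comm, smul_mul_assoc]
        congr 2
        have h4 := rho_bracket h.car (pj k n σ) M
        rw [pj_comm σ hM, sub_self, map_zero] at h4
        have h5 : rho a b M * rho a b (pj k n σ) = rho a b (pj k n σ) * rho a b M :=
          (sub_eq_zero.1 h4.symm).symm
        rw [rhoh_eq, rhoh_eq]
        simp only [sub_mul, mul_sub, smul_mul_assoc, mul_smul_comm, one_mul, mul_one, h5]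
        module
      have h4 : ((Y * Z - Z * Y).baseChange ℂ : Module.End ℂ (ℂ ⊗[ℚ] A.H1)) ∈
          cx (⊥ : Submodule ℚ (Module.End ℚ A.H1)) := by
        rw [bc_br, h3, sub_self]
        exact Submodule.zero_mem _
      exact sub_eq_zero.1 ((Submodule.mem_bot ℚ).1 (mem_of_bc h4))
    have h3 := hcen Z hZC
    have h4 := wv_sum h.car hf (fun σ => e σ y)
    rw [← hZy, h3, sub_self] at h4
    have h5 := (smul_eq_zero.1 h4.symm).resolve_right hY0
    have h6 : (2 : ℂ) * n ≠ 0 := mul_ne_zero two_ne_zero (Nat.cast_ne_zero.2 hn)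
    exact (mul_eq_zero.1 h5).resolve_left h6
  funext σ
  have h3 : (f σ : ℂ) = 0 := congrFun h2 σ
  exact_mod_cast h3

/-- **The centre is rigid.** -/
theorem Dat.rigid (hn : n ≠ 0) (h : Dat A F a b e) (hs : HasSmall F) {X : Module.End ℚ A.H1}
    (hX : X ∈ A.CN) (hgen : ∀ T : Module.End ℚ A.H1,
      (∀ Y ∈ A.NA, ∀ Z ∈ A.NA, T * (Y * Z - Z * Y) = (Y * Z - Z * Y) * T) → T * X = X * T →
      ∀ Z ∈ A.CN, T * Z = Z * T) {Y : Module.End ℚ A.H1} (hY : Y ∈ A.CN) : Dom X Y := by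
  intro r v x y h0 hx hy hsum
  rcases subsingleton_or_nontrivial (ℂ ⊗[ℚ] A.H1) with hsub | hnt
  · refine Finset.sum_eq_zero fun i _ => absurd (Subsingleton.elim _ _) (h0 i)
  obtain ⟨x', hx', hXx⟩ := h.exists_elt hX
  obtain ⟨y', hy', hYy⟩ := h.exists_elt hY
  have hind := indep hs h.half hx' fun f hf hrel => h.no_small hn hXx hgen hf hrel
  have h1 : ∀ i, ∃ m : Fin k → ℤ, x i = ∑ σ, (m σ : ℂ) * e σ x' ∧
      y i = ∑ σ, (m σ : ℂ) * e σ y' := by
    intro i
    obtain ⟨m, hm1, hm2⟩ := eigen h.car (e := fun σ => e σ x') hind (h0 i) (x := x i) (by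
      rw [← hXx]
      exact hx i)
    refine ⟨m, hm1, ?_⟩
    have h2 := hy i
    rw [hYy, LinearMap.sum_apply] at h2
    have h3 : ∀ σ, (e σ y' • NN a b σ) (v i) = ((m σ : ℂ) * e σ y') • v i := by
      intro σ
      rw [LinearMap.smul_apply, hm2 σ, smul_smul]
      congr 1
      exact mul_comm _ _
    rw [Finset.sum_congr rfl fun σ _ => h3 σ, ← Finset.sum_smul] at h2
    have h4 : (∑ σ, (m σ : ℂ) * e σ y' - y i) • v i = 0 := by rw [sub_smul, h2, sub_self]
    exact (sub_eq_zero.1 ((smul_eq_zero.1 h4).resolve_right (h0 i))).symm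
  choose m hm1 hm2 using h1
  have h2 : (fun σ => ∑ i, m i σ) = 0 := by
    apply hind
    rw [← hsum, Finset.sum_congr rfl fun i _ => hm1 i, Finset.sum_comm]
    refine Finset.sum_congr rfl fun σ _ => ?_
    push_cast
    rw [Finset.sum_mul]
  rw [Finset.sum_congr rfl fun i _ => hm2 i, Finset.sum_comm]
  refine Finset.sum_eq_zero fun σ _ => ?_
  have h3 : ∑ i, m i σ = 0 := congrFun h2 σ
  rw [← Finset.sum_mul, ← Int.cast_sum, h3, Int.cast_zero, zero_mul]

/-- The derived algebra. -/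
theorem Dat.der (hn : n = 1 ∨ Even n) (h : Dat A F a b e) {𝔥 : Submodule ℚ (Module.End ℚ A.H1)}
    (hf : A.Full 𝔥) : ∀ X ∈ A.NA, ∀ Y ∈ A.NA, X * Y - Y * X ∈ 𝔥 := by
  rcases hn with hn | hn
  · subst hn
    intro X hX Y hY
    obtain ⟨M, hM, hXM⟩ := (glC_iff h.car _).1 (h.le (bc_mem hX))
    obtain ⟨N, hN, hYN⟩ := (glC_iff h.car _).1 (h.le (bc_mem hY))
    have hMN : M * N = N * M := by
      ext p q
      rw [Matrix.mul_apply, Matrix.mul_apply, Finset.sum_eq_single p, Finset.sum_eq_single p]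
      · by_cases hpq : p = q
        · rw [hpq, mul_comm]
        · have h1 : p.1 ≠ q.1 := fun h => hpq (Prod.ext h (Subsingleton.elim _ _))
          rw [hM p q h1, hN p q h1, mul_zero, mul_zero]
      · intro r _ hr
        rw [hN p r (fun h => hr (Prod.ext h.symm (Subsingleton.elim _ _))), zero_mul]
      · intro h; exact absurd (Finset.mem_univ _) h
      · intro r _ hr
        rw [hM p r (fun h => hr (Prod.ext h.symm (Subsingleton.elim _ _))), zero_mul]
      · intro h; exact absurd (Finset.mem_univ _) h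
    have h3 : (X.baseChange ℂ : Module.End ℂ (ℂ ⊗[ℚ] A.H1)) * Y.baseChange ℂ =
        Y.baseChange ℂ * X.baseChange ℂ := by
      have h4 := rho_bracket h.car M N
      rw [hMN, sub_self, map_zero] at h4
      have h5 : rho a b M * rho a b N = rho a b N * rho a b M := sub_eq_zero.1 h4.symm
      rw [hXM, hYN, rhoh_eq, rhoh_eq]
      simp only [sub_mul, mul_sub, smul_mul_assoc, mul_smul_comm, one_mul, mul_one, h5]
      module
    have h4 : ((X * Y - Y * X).baseChange ℂ : Module.End ℂ (ℂ ⊗[ℚ] A.H1)) ∈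
        cx (⊥ : Submodule ℚ (Module.End ℚ A.H1)) := by
      rw [bc_br, h3, sub_self]
      exact Submodule.zero_mem _
    have h5 := (Submodule.mem_bot ℚ).1 (mem_of_bc h4)
    rw [h5]
    exact 𝔥.zero_mem
  · exact (full_unitary hf hn h.car h.le h.gen).1

/-- **Main theorem.** -/
theorem Dat.main (hn0 : n ≠ 0) (hn : n = 1 ∨ Even n) (h : Dat A F a b e) (hs : HasSmall F)
    {H : Set (Matrix (Fin (2 * g)) (Fin (2 * g)) ℂ)} (hpt : Pool.Agent.R917.Pt A H) :
    A.NA ≤ Pool.Agent.R917.lieQ H ∧ (1 : Module.End ℚ A.H1) ∈ Pool.Agent.R917.lieQ H :=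
  lie_of_der hpt (h.der hn hpt.full)
    (centre_mem hpt fun X hX hgen Y hY => h.rigid hn0 hs hX hgen hY)

end Pool.Agent.T9h38.KS

end
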