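import Pool.Agent.T9h38.KS.Num
import Pool.Agent.T9h38.CM.Trans
import Pool.Agent.T9h38.CM.Cyc
import Pool.Agent.T9h38.CM.Prime

set_option autoImplicit false
set_option linter.unusedSectionVars false
set_option linter.unusedVariables false

/-!
# Families of CM fields whose stable spaces contain functions with values 0, 1, -1
-/

open Module

noncomputable section

namespace Pool.Agent.T9h38.KS

open Pool.Agent.T9h38.CM

variable {F : Type} [Field F] [NumberField F]

local instance decE' : DecidableEq (F →+* ℂ) := Classical.decEq _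

/-- A stable space of odd functions without functions with values in `{0, 1, -1}`. -/
structure NoSm (J : Submodule ℚ ((F →+* ℂ) → ℚ)) : Prop where
  stable : ∀ (τ : ℂ ≃+* ℂ), ∀ f ∈ J, (fun φ => f (mv τ φ)) ∈ J
  odd : ∀ f ∈ J, ∀ φ, f (cj φ) = -f φ
  none : ∀ f ∈ J, (∀ φ, f φ = 0 ∨ f φ = 1 ∨ f φ = -1) → f = 0

theorem hasSmall_of (h : ∀ J : Submodule ℚ ((F →+* ℂ) → ℚ), NoSm J → J = ⊥) : HasSmall F := by
  intro J h1 h2 h3
  by_contra hcon
  push Not at hcon
  refine h3 (h J ⟨h1, h2, fun f hf hv => ?_⟩)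
  by_contra hne
  obtain ⟨φ, hφ⟩ := hcon f hf hne
  rcases hv φ with h4 | h4 | h4
  · exact hφ.1 h4
  · exact hφ.2.1 h4
  · exact hφ.2.2 h4

section CMField

variable [NumberField.IsCMField F] {J : Submodule ℚ ((F →+* ℂ) → ℚ)}

theorem NoSm.isSmall (h : NoSm J) : IsSmall J where
  stable := h.stable
  odd := h.odd
  small φ ψ hne hmem := by
    have heps : ∀ φ : F →+* ℂ, eps cj φ ∉ J := by
      intro φ hφ
      have h1 := h.none _ hφ fun ψ => by
        by_cases h1 : ψ = φ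
        · rw [h1, eps_self]
          simp
        · by_cases h2 : ψ = cj φ
          · rw [h2, eps_cj_self]
            simp
          · rw [eps_of_ne h1 h2]
            simp
      have h2 := congrFun h1 φ
      rw [eps_self, Pi.zero_apply] at h2
      exact one_ne_zero h2
    by_cases hc : ψ = cj φ
    · have h1 : eps cj φ - eps cj ψ = (2 : ℚ) • eps cj φ := by
        funext χ
        rw [Pi.sub_apply, Pi.smul_apply, hc, eps_odd_left, smul_eq_mul]
        ring
      rw [h1] at hmem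
      exact heps φ ((Submodule.smul_mem_iff J two_ne_zero).1 hmem)
    · have h1 := h.none _ hmem fun χ => by
        rw [Pi.sub_apply]
        by_cases h1 : χ = φ
        · rw [h1, eps_self, eps_of_ne hne]
          · simp
          · intro h2
            exact hc (by rw [h2, cj_cj])
        · by_cases h2 : χ = cj φ
          · rw [h2, eps_cj_self, eps_of_ne (Ne.symm hc)]
            · simp
            · intro h3
              exact hne (cj_inj h3)
          · rw [eps_of_ne h1 h2]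
            by_cases h3 : χ = ψ
            · rw [h3, eps_self]
              simp
            · by_cases h4 : χ = cj ψ
              · rw [h4, eps_cj_self]
                simp
              · rw [eps_of_ne h3 h4]
                simp
      have h2 := congrFun h1 φ
      rw [Pi.sub_apply, eps_self, eps_of_ne hne, Pi.zero_apply] at h2
      · norm_num at h2
      · intro h3
        exact hc (by rw [h3, cj_cj])

theorem NoSm.eq_bot (h : ∀ f ∈ J, ∀ φ, f φ = 0) : J = ⊥ := by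
  rw [Submodule.eq_bot_iff]
  intro f hf
  funext φ
  exact h f hf φ

theorem hasSmall_separated (hs : Separated F) : HasSmall F :=
  hasSmall_of fun _ hJ => NoSm.eq_bot fun _ hf φ => eq_zero_of_separated hs hJ.isSmall hf φ

theorem hasSmall_irr (hs : Irr F) : HasSmall F :=
  hasSmall_of fun _ hJ => NoSm.eq_bot fun _ hf φ => eq_zero_of_irr hs hJ.isSmall hf φ

theorem hasSmall_cyclic2 (hs : Cyclic2 F) : HasSmall F :=
  hasSmall_of fun _ hJ => NoSm.eq_bot fun _ hf φ =>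
    congrFun (eq_zero_of_cyclic2 hs hJ.isSmall hf) φ

/-- A sign function whose multiples contain the space. -/
theorem NoSm.of_sign (hJ : NoSm J) {h : (F →+* ℂ) → ℚ} (hval : ∀ φ, h φ = 1 ∨ h φ = -1)
    (hmul : ∀ f ∈ J, ∃ t : ℚ, f = t • h) : J = ⊥ := by
  rw [Submodule.eq_bot_iff]
  intro f hf
  obtain ⟨t, ht⟩ := hmul f hf
  by_cases ht0 : t = 0
  · rw [ht, ht0, zero_smul]
  · exfalso
    have h1 : h ∈ J := by
      rw [← Submodule.smul_mem_iff J ht0, ← ht]
      exact hf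
    have h2 := hJ.none h h1 fun φ => Or.inr (hval φ)
    obtain ⟨φ⟩ : Nonempty (F →+* ℂ) := inferInstance
    have h3 := congrFun h2 φ
    rcases hval φ with h4 | h4
    · rw [h4, Pi.zero_apply] at h3
      exact one_ne_zero h3
    · rw [h4, Pi.zero_apply] at h3
      norm_num at h3

theorem hasSmall_prime {p : ℕ} (hp : p.Prime) (hp2 : p ≠ 2) (hF : finrank ℚ F = 2 * p) :
    HasSmall F :=
  hasSmall_of fun J hJ => by
    obtain ⟨h, _, h2, h3⟩ := eq_sign_of_prime hp hp2 hF hJ.isSmall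
    exact hJ.of_sign h2 h3

theorem NoSm.finrank_ne_one (hJ : NoSm J) : finrank ℚ J ≠ 1 := by
  intro h1
  obtain ⟨K, hK⟩ := exists_kernel J
  set m : ℚ := 1 / finrank ℚ F with hm
  have hpos : (0 : ℚ) < finrank ℚ F := by exact_mod_cast finrank_pos
  have hm0 : m ≠ 0 := by positivity
  have hd : ∀ φ, K φ φ = m := by
    intro φ
    have := ker_diag hJ.isSmall hK φ
    rw [h1] at this
    rw [hm]
    field_simp
    rw [this]
    norm_num
  obtain ⟨hr1, hr2⟩ := rank_one (N := K) (m := m) (by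
      rw [NumberField.Embeddings.card F ℂ, hm]
      field_simp) hK.symm hK.idem hd
  obtain ⟨x⟩ : Nonempty (F →+* ℂ) := inferInstance
  have hmem : m⁻¹ • K x ∈ J := J.smul_mem _ (hK.mem x)
  have h2 := hJ.none _ hmem fun φ => by
    right
    rw [Pi.smul_apply, smul_eq_mul]
    rcases eq_or_eq_neg_of_sq (hr1 x φ) with h | h
    · left
      rw [h, inv_mul_cancel₀ hm0]
    · right
      rw [h, mul_neg, inv_mul_cancel₀ hm0]
  have h3 := congrFun h2 x
  rw [Pi.smul_apply, hd, smul_eq_mul, inv_mul_cancel₀ hm0, Pi.zero_apply] at h3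
  exact one_ne_zero h3

theorem NoSm.bot_of_le (hJ : NoSm J) (h : finrank ℚ J ≤ 1) : J = ⊥ := by
  have h1 := hJ.finrank_ne_one
  have h2 : finrank ℚ J = 0 := by omega
  exact Submodule.finrank_eq_zero.1 h2

theorem hasSmall_trans3 (hF : 6 ≤ finrank ℚ F) (h : Trans3 F) : HasSmall F :=
  hasSmall_of fun J hJ => hJ.bot_of_le (finrank_le_one_of_trans3 hJ.isSmall hF h)

theorem hasSmall_trans2 (ht : Trans2 F) {g : ℕ} (hg : finrank ℚ F = 2 * g)
    (hsq : ∀ n : ℕ, 2 ≤ n → n + 2 ≤ g → ¬IsSquare (n * (g - n) * (g - 1))) : HasSmall F :=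
  hasSmall_of fun J hJ => hJ.bot_of_le (finrank_le_one_of_trans2 hJ.isSmall ht hg hsq)

theorem hasSmall_four (hF : finrank ℚ F ≤ 4) : HasSmall F :=
  hasSmall_of fun J hJ => hJ.bot_of_le (by
    have := finrank_lt hJ.isSmall
    omega)

/-! ### Degree eight -/

theorem NoSm.eq_of_ker (hJ : NoSm J) (hF : finrank ℚ F = 8) (h2 : finrank ℚ J = 2)
    {K : (F →+* ℂ) → (F →+* ℂ) → ℚ} (hK : IsKer J K) {φ ψ : F →+* ℂ} (h : K φ ψ = 1 / 4) :
    φ = ψ := by
  classical
  by_contra hne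
  have hd : ∀ φ, K φ φ = 1 / 4 := by
    intro φ
    have := ker_diag hJ.isSmall hK φ
    rw [h2, hF] at this
    norm_num at this
    linarith
  have h1 := ker_sq hK φ
  rw [hd] at h1
  -- four embeddings
  have hne' : cj φ ≠ ψ := by
    intro h3
    rw [← h3, (ker_cj hJ.isSmall hK φ φ).1, hd] at h
    norm_num at h
  have hs : ∑ χ ∈ ({φ, cj φ, ψ, cj ψ} : Finset (F →+* ℂ)), K φ χ ^ 2 = 1 / 4 := by
    rw [Finset.sum_insert, Finset.sum_insert, Finset.sum_insert, Finset.sum_singleton,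
      (ker_cj hJ.isSmall hK φ φ).1, (ker_cj hJ.isSmall hK φ ψ).1, hd, h]
    · norm_num
    · rw [Finset.mem_singleton]
      exact (cj_ne ψ).symm
    · rw [Finset.mem_insert, Finset.mem_singleton, not_or]
      exact ⟨hne', fun h3 => hne (cj_inj h3)⟩
    · rw [Finset.mem_insert, Finset.mem_insert, Finset.mem_singleton, not_or, not_or]
      exact ⟨(cj_ne φ).symm, hne, fun h3 => hne' (by rw [h3, cj_cj])⟩
  have h3 := Finset.sum_add_sum_compl ({φ, cj φ, ψ, cj ψ} : Finset (F →+* ℂ)) fun χ => K φ χ ^ 2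
  rw [hs, h1] at h3
  have h4 : ∑ χ ∈ ({φ, cj φ, ψ, cj ψ} : Finset (F →+* ℂ))ᶜ, K φ χ ^ 2 = 0 := by linarith
  rw [Finset.sum_eq_zero_iff_of_nonneg fun x _ => sq_nonneg _] at h4
  have h5 : (4 : ℚ) • K φ ∈ J := J.smul_mem _ (hK.mem φ)
  have h6 := hJ.none _ h5 fun χ => by
    rw [Pi.smul_apply, smul_eq_mul]
    by_cases hχ : χ ∈ ({φ, cj φ, ψ, cj ψ} : Finset (F →+* ℂ))
    · right
      rw [Finset.mem_insert, Finset.mem_insert, Finset.mem_insert, Finset.mem_singleton] at hχ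
      rcases hχ with rfl | rfl | rfl | rfl
      · left; rw [hd]; norm_num
      · right; rw [(ker_cj hJ.isSmall hK φ φ).1, hd]; norm_num
      · left; rw [h]; norm_num
      · right; rw [(ker_cj hJ.isSmall hK φ ψ).1, h]; norm_num
    · left
      have h7 := h4 χ (Finset.mem_compl.2 hχ)
      rw [pow_eq_zero_iff two_ne_zero] at h7
      rw [h7, mul_zero]
  have h7 := congrFun h6 φ
  rw [Pi.smul_apply, hd, Pi.zero_apply] at h7
  norm_num at h7

theorem exists_line {V : Type} [AddCommGroup V] [Module ℚ V] (h : finrank ℚ V = 2)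
    (ev : V →ₗ[ℚ] ℚ) (hs : Function.Surjective ev) :
    ∃ γ : V, ev γ = 0 ∧ γ ≠ 0 ∧ ∀ w, ev w = 0 → ∃ t : ℚ, w = t • γ := by
  have hfd : FiniteDimensional ℚ V := FiniteDimensional.of_finrank_pos (by omega)
  have hker : finrank ℚ (LinearMap.ker ev) = 1 := by
    have h3 := LinearMap.finrank_range_add_finrank_ker ev
    rw [LinearMap.range_eq_top.2 hs, finrank_top, finrank_self, h] at h3
    omega
  obtain ⟨⟨γ, hγ⟩, h1, h2⟩ := finrank_eq_one_iff'.1 hker
  refine ⟨γ, hγ, fun h3 => h1 (Subtype.ext h3), fun w hw => ?_⟩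
  obtain ⟨t, ht⟩ := h2 ⟨w, hw⟩
  exact ⟨t, (congrArg Subtype.val ht).symm⟩

theorem sum_insert_six {α : Type} [DecidableEq α] {a b c d e f : α} (G : α → ℚ)
    (hab : a ≠ b) (hac : a ≠ c) (had : a ≠ d) (hae : a ≠ e) (haf : a ≠ f) (hbc : b ≠ c)
    (hbd : b ≠ d) (hbe : b ≠ e) (hbf : b ≠ f) (hcd : c ≠ d) (hce : c ≠ e) (hcf : c ≠ f)
    (hde : d ≠ e) (hdf : d ≠ f) (hef : e ≠ f) :
    ∑ x ∈ ({a, b, c, d, e, f} : Finset α), G x = G a + (G b + (G c + (G d + (G e + G f)))) := by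
  rw [Finset.sum_insert, Finset.sum_insert, Finset.sum_insert, Finset.sum_insert,
    Finset.sum_insert, Finset.sum_singleton] <;> simp [*]

/-- **Octic fields**: if there is a stable space of dimension two without small functions then the
stabilisers are trivial. -/
theorem NoSm.free (hJ : NoSm J) (hF : finrank ℚ F = 8) (h2 : finrank ℚ J = 2) {τ : ℂ ≃+* ℂ}
    {φ₀ : F →+* ℂ} (hτ : mv τ φ₀ = φ₀) (ψ : F →+* ℂ) : mv τ ψ = ψ := by
  classical
  have hS := hJ.isSmall
  obtain ⟨K, hK⟩ := exists_kernel J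
  have hd : ∀ φ, K φ φ = 1 / 4 := by
    intro φ
    have := ker_diag hS hK φ
    rw [h2, hF] at this
    norm_num at this
    linarith
  have heq : ∀ {φ ψ : F →+* ℂ}, K φ ψ = 1 / 4 → φ = ψ := fun h => hJ.eq_of_ker hF h2 hK h
  have heq' : ∀ {φ ψ : F →+* ℂ}, K φ ψ = -(1 / 4) → φ = cj ψ := by
    intro φ ψ h
    apply heq
    rw [(ker_cj hS hK φ ψ).1, h, neg_neg]
  have hKτ : ∀ ψ, K φ₀ (mv τ ψ) = K φ₀ ψ := by
    intro ψ
    have := ker_inv hS hK τ φ₀ ψ
    rwa [hτ] at this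
  -- the functions which vanish at `φ₀`
  let ev : J →ₗ[ℚ] ℚ := (LinearMap.proj φ₀ : ((F →+* ℂ) → ℚ) →ₗ[ℚ] ℚ) ∘ₗ J.subtype
  have hevr : Function.Surjective ev := by
    intro q
    refine ⟨⟨(4 * q) • K φ₀, J.smul_mem _ (hK.mem φ₀)⟩, ?_⟩
    change ((4 * q) • K φ₀) φ₀ = q
    rw [Pi.smul_apply, hd, smul_eq_mul]
    ring
  obtain ⟨⟨γ, hγJ⟩, hγk, hγ0, hγall⟩ := exists_line h2 ev hevr
  have hγ0' : γ φ₀ = 0 := hγk
  have hγne : γ ≠ 0 := by
    rintro rfl
    exact hγ0 rfl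
  have hall : ∀ f ∈ J, f φ₀ = 0 → ∃ t : ℚ, f = t • γ := by
    intro f hf hf0
    obtain ⟨t, ht⟩ := hγall ⟨f, hf⟩ hf0
    exact ⟨t, congrArg (fun x : J => (x : (F →+* ℂ) → ℚ)) ht⟩
  have hdec : ∀ f ∈ J, ∃ t : ℚ, f = (4 * f φ₀) • K φ₀ + t • γ := by
    intro f hf
    obtain ⟨t, ht⟩ := hall (f - (4 * f φ₀) • K φ₀) (J.sub_mem hf (J.smul_mem _ (hK.mem φ₀))) (by
      rw [Pi.sub_apply, Pi.smul_apply, hd, smul_eq_mul]
      ring)
    exact ⟨t, by rw [← ht]; abel⟩
  obtain ⟨t, ht⟩ := hall _ (hJ.stable τ γ hγJ) (by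
    change γ (mv τ φ₀) = 0
    rw [hτ, hγ0'])
  have ht' : ∀ ψ, γ (mv τ ψ) = t * γ ψ := fun ψ => congrFun ht ψ
  have htt : t = 1 ∨ t = -1 := by
    have h3 : ∑ ψ, γ (mv τ ψ) ^ 2 = ∑ ψ, γ ψ ^ 2 := Equiv.sum_comp (mvE τ) fun ψ => γ ψ ^ 2
    have h4 : ∑ ψ, γ (mv τ ψ) ^ 2 = t ^ 2 * ∑ ψ, γ ψ ^ 2 := by
      rw [Finset.mul_sum]
      refine Finset.sum_congr rfl fun ψ _ => ?_
      rw [ht', mul_pow]
    have h5 : ∑ ψ, γ ψ ^ 2 ≠ 0 := by
      intro h6
      rw [Finset.sum_eq_zero_iff_of_nonneg fun x _ => sq_nonneg _] at h6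
      apply hγne
      funext ψ
      have := h6 ψ (Finset.mem_univ ψ)
      rwa [pow_eq_zero_iff two_ne_zero] at this
    have h6 : t ^ 2 = 1 := by
      rw [h4] at h3
      have h7 : (t ^ 2 - 1) * ∑ ψ, γ ψ ^ 2 = 0 := by rw [sub_mul, h3, one_mul, sub_self]
      exact sub_eq_zero.1 ((mul_eq_zero.1 h7).resolve_right h5)
    have h7 : (t - 1) * (t + 1) = 0 := by linear_combination h6
    rcases mul_eq_zero.1 h7 with h8 | h8
    · exact Or.inl (sub_eq_zero.1 h8)
    · exact Or.inr (eq_neg_of_add_eq_zero_left h8)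
  rcases htt with rfl | rfl
  · apply Eq.symm
    apply heq
    obtain ⟨s, hs⟩ := hdec (K ψ) (hK.mem ψ)
    have h3 : K ψ (mv τ ψ) = K ψ ψ := by
      have e1 := congrFun hs (mv τ ψ)
      have e2 := congrFun hs ψ
      rw [Pi.add_apply, Pi.smul_apply, Pi.smul_apply, hKτ, ht', one_mul] at e1
      rw [Pi.add_apply, Pi.smul_apply, Pi.smul_apply] at e2
      rw [e1, ← e2]
    rw [h3, hd]
  · exfalso
    have hR : ∀ f ∈ J, ∀ ψ, f (mv τ ψ) + f ψ = 8 * f φ₀ * K φ₀ ψ := by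
      intro f hf ψ
      obtain ⟨s, hs⟩ := hdec f hf
      have e1 := congrFun hs (mv τ ψ)
      have e2 := congrFun hs ψ
      rw [Pi.add_apply, Pi.smul_apply, Pi.smul_apply, hKτ, ht', smul_eq_mul, smul_eq_mul] at e1
      rw [Pi.add_apply, Pi.smul_apply, Pi.smul_apply, smul_eq_mul, smul_eq_mul] at e2
      linear_combination e1 + e2
    have hinv : ∀ ψ : F →+* ℂ, mv τ (mv τ ψ) = ψ := by
      intro ψ
      apply Eq.symm
      apply heq
      have h3 := hR _ (hK.mem ψ) ψ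
      have h4 := hR _ (hK.mem ψ) (mv τ ψ)
      rw [hKτ] at h4
      have h5 := hd ψ
      linarith
    have hfix : ∀ ψ : F →+* ℂ, mv τ ψ = ψ → ψ = φ₀ ∨ ψ = cj φ₀ := by
      intro ψ hψ
      have h3 := hR _ (hK.mem ψ) ψ
      rw [hψ, hd, hK.symm ψ φ₀] at h3
      have h4 : (K φ₀ ψ) ^ 2 = (1 / 4) ^ 2 := by linarith
      rcases eq_or_eq_neg_of_sq h4 with h5 | h5
      · exact Or.inl (heq h5).symm
      · right
        have := heq' h5
        rw [this, cj_cj]
    have hcjfix : ∀ ψ : F →+* ℂ, mv τ ψ = cj ψ → K φ₀ ψ = 0 := by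
      intro ψ hψ
      have h3 := hKτ ψ
      rw [hψ, (ker_cj hS hK φ₀ ψ).1] at h3
      linarith
    have hsq := ker_sq hK φ₀
    rw [hd] at hsq
    obtain ⟨ψ, hψ1, hψ2, hψ3⟩ : ∃ ψ, ψ ≠ φ₀ ∧ ψ ≠ cj φ₀ ∧ K φ₀ ψ ≠ 0 := by
      by_contra hcon
      push Not at hcon
      rw [← Finset.sum_add_sum_compl ({φ₀, cj φ₀} : Finset (F →+* ℂ)),
        Finset.sum_pair (cj_ne φ₀).symm, (ker_cj hS hK φ₀ φ₀).1, hd,
        Finset.sum_eq_zero (s := ({φ₀, cj φ₀} : Finset (F →+* ℂ))ᶜ)] at hsq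
      · norm_num at hsq
      · intro χ hχ
        rw [Finset.mem_compl, Finset.mem_insert, Finset.mem_singleton, not_or] at hχ
        rw [hcon χ hχ.1 hχ.2, zero_pow two_ne_zero]
    have hn1 : mv τ ψ ≠ ψ := fun h => by
      rcases hfix ψ h with h3 | h3
      · exact hψ1 h3
      · exact hψ2 h3
    have hn2 : mv τ ψ ≠ cj ψ := fun h => hψ3 (hcjfix ψ h)
    have hcc : ∀ {α β : F →+* ℂ}, α ≠ cj β → cj α ≠ β := fun h h' => h (by rw [← h', cj_cj])
    have hn3 : mv τ ψ ≠ φ₀ := fun h => hψ1 (mv_inj τ (h.trans hτ.symm))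
    have hn4 : mv τ ψ ≠ cj φ₀ := fun h => hψ2 (mv_inj τ (by rw [h, mv_cj, hτ]))
    obtain ⟨T, hT⟩ : ∃ T : Finset (F →+* ℂ), T = {φ₀, cj φ₀, ψ, cj ψ, mv τ ψ, cj (mv τ ψ)} :=
      ⟨_, rfl⟩
    have hTmem : ∀ χ, χ ∈ T ↔ χ = φ₀ ∨ χ = cj φ₀ ∨ χ = ψ ∨ χ = cj ψ ∨ χ = mv τ ψ ∨
        χ = cj (mv τ ψ) := by
      intro χ
      rw [hT]
      simp only [Finset.mem_insert, Finset.mem_singleton]
    have hsum : ∀ G : (F →+* ℂ) → ℚ, ∑ χ ∈ T, G χ = G φ₀ + (G (cj φ₀) + (G ψ + (G (cj ψ) +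
        (G (mv τ ψ) + G (cj (mv τ ψ)))))) := by
      intro G
      rw [hT]
      apply sum_insert_six
      · exact (cj_ne φ₀).symm
      · exact hψ1.symm
      · exact fun h => hψ2 (by rw [h, cj_cj])
      · exact hn3.symm
      · exact fun h => hn4 (by rw [h, cj_cj])
      · exact hψ2.symm
      · exact fun h => hψ1 (cj_inj h).symm
      · exact hn4.symm
      · exact fun h => hn3 (cj_inj h).symm
      · exact (cj_ne ψ).symm
      · exact hn1.symm
      · exact fun h => hn2 (by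
          have h3 := congrArg cj h
          rw [cj_cj] at h3
          exact h3.symm)
      · exact hn2.symm
      · exact fun h => hn1 (cj_inj h).symm
      · exact (cj_ne _).symm
    have hTcard : T.card = 6 := by
      have h3 := hsum fun _ => 1
      rw [Finset.sum_const, nsmul_eq_mul, mul_one] at h3
      norm_num at h3
      exact_mod_cast h3
    have hTc : Tᶜ.card = 2 := by
      rw [Finset.card_compl, NumberField.Embeddings.card F ℂ, hF, hTcard]
    have hTcj : ∀ χ, χ ∈ T → cj χ ∈ T := by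
      intro χ hχ
      rw [hTmem] at hχ ⊢
      rcases hχ with rfl | rfl | rfl | rfl | rfl | rfl
      · simp
      · rw [cj_cj]; simp
      · simp
      · rw [cj_cj]; simp
      · simp
      · rw [cj_cj]; simp
    have hTτ : ∀ χ, χ ∈ T → mv τ χ ∈ T := by
      intro χ hχ
      rw [hTmem] at hχ ⊢
      rcases hχ with rfl | rfl | rfl | rfl | rfl | rfl
      · rw [hτ]; simp
      · rw [mv_cj, hτ]; simp
      · simp
      · rw [mv_cj]; simp
      · rw [hinv]; simp
      · rw [mv_cj, hinv]; simp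
    have hz : ∀ χ ∈ Tᶜ, K φ₀ χ ^ 2 = 0 := by
      intro χ hχ
      have h3 : cj χ ∈ Tᶜ := by
        rw [Finset.mem_compl] at hχ ⊢
        intro h
        apply hχ
        have := hTcj _ h
        rwa [cj_cj] at this
      have h4 : mv τ χ ∈ Tᶜ := by
        rw [Finset.mem_compl] at hχ ⊢
        intro h
        apply hχ
        have := hTτ _ h
        rwa [hinv] at this
      have h5 : Tᶜ = {χ, cj χ} := by
        symm
        apply Finset.eq_of_subset_of_card_le
        · intro x hx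
          rw [Finset.mem_insert, Finset.mem_singleton] at hx
          rcases hx with rfl | rfl
          · exact hχ
          · exact h3
        · rw [hTc, Finset.card_pair (cj_ne χ).symm]
      rw [h5, Finset.mem_insert, Finset.mem_singleton] at h4
      rcases h4 with h4 | h4
      · exfalso
        rw [Finset.mem_compl, hTmem] at hχ
        rcases hfix χ h4 with h6 | h6
        · exact hχ (Or.inl h6)
        · exact hχ (Or.inr (Or.inl h6))
      · rw [hcjfix χ h4, zero_pow two_ne_zero]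
    rw [← Finset.sum_add_sum_compl T, Finset.sum_eq_zero hz, hsum fun χ => K φ₀ χ ^ 2, hd,
      (ker_cj hS hK φ₀ φ₀).1, (ker_cj hS hK φ₀ ψ).1, (ker_cj hS hK φ₀ (mv τ ψ)).1, hKτ, hd] at hsq
    apply sq_ne_two (8 * K φ₀ ψ)
    linarith

theorem hasSmall_eight (hF : finrank ℚ F = 8) (h : ∃ (τ : ℂ ≃+* ℂ) (φ ψ : F →+* ℂ),
    mv τ φ = φ ∧ mv τ ψ ≠ ψ) : HasSmall F :=
  hasSmall_of fun J hJ => hJ.bot_of_le (by
    have h1 := finrank_lt hJ.isSmall
    have h2 := finrank_ne hJ.isSmall (by omega)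
    by_contra hcon
    have h3 : finrank ℚ J = 2 := by omega
    obtain ⟨τ, φ, ψ, h4, h5⟩ := h
    exact h5 (hJ.free hF h3 h4 ψ))

end CMField

end Pool.Agent.T9h38.KS

end
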