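import Pool.Agent.T9h38.KS.Cen

set_option autoImplicit false
set_option linter.unusedSectionVars false
set_option linter.unusedVariables false

/-!
# Kuga-Satake varieties of unitary type in terms of matrices
-/

open Module Function TensorProduct Matrix

noncomputable section

namespace Pool.Agent.T9h38.KS

open Pool.Agent.R918 Pool.Agent.T9h38.CM
open Pool.Agent.Y102 Pool.Agent.W516.DR Pool.Agent.H204R3.GP

variable {g : ℕ} {A : AbVar g} {k n : ℕ}
  {F : Type} [Field F] [NumberField F] [NumberField.IsCMField F]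

theorem dat_of_matrix {a b : Fin k × Fin n → Matrix (Fin (2 * g)) (Fin (2 * g)) ℂ}
    {e : Fin k → (F →+* ℂ)} (he : Half e)
    (haa : ∀ p q, a p * a q = -(a q * a p)) (hbb : ∀ p q, b p * b q = -(b q * b p))
    (hab : ∀ p q, a p * b q + b q * a p = if p = q then 1 else 0)
    (hl : Submodule.span ℂ {Y | ∃ X ∈ A.NA, Y = toC X} ≤ glC a b)
    (hgen : ∀ σ i j, a (σ, i) * b (σ, j) ∈
      Algebra.adjoin ℂ (Submodule.span ℂ {Y | ∃ X ∈ A.NA, Y = toC X} : Set _))
    (hcen : ∀ x : F, NumberField.IsCMField.complexConj F x = -x →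
      ∃ X ∈ A.NA, toC X = ∑ σ, e σ x • ∑ i, (a (σ, i) * b (σ, i) - b (σ, i) * a (σ, i))) :
    Dat A F (fun p => matE (2 * g) (a p)) (fun p => matE (2 * g) (b p)) e where
  car :=
    { aa := fun p q => by rw [← map_mul, haa p q, map_neg, map_mul]
      bb := fun p q => by rw [← map_mul, hbb p q, map_neg, map_mul]
      ab := fun p q => by
        rw [← map_mul, ← map_mul, ← map_add, hab p q]
        split_ifs
        · exact map_one _
        · exact map_zero _ }
  half := he
  le := by
    rw [← map_lie]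
    refine (Submodule.map_mono hl).trans ?_
    unfold glC
    rw [Submodule.map_span]
    refine Submodule.span_mono ?_
    rintro _ ⟨_, ⟨σ, i, j, rfl⟩, rfl⟩
    refine ⟨σ, i, j, ?_⟩
    change matE (2 * g) _ = _
    rw [map_sub, map_mul, map_mul]
  gen := by
    intro σ i j
    rw [← map_lie, ← map_mul]
    have h1 : ∀ x ∈ Algebra.adjoin ℂ
        (Submodule.span ℂ {Y | ∃ X ∈ A.NA, Y = toC X} : Set (Matrix (Fin (2 * g)) (Fin (2 * g)) ℂ)),
        matE (2 * g) x ∈ Algebra.adjoin ℂ ((Submodule.span ℂ {Y | ∃ X ∈ A.NA, Y = toC X}).map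
          (matE (2 * g)).toLinearMap : Set (Module.End ℂ (ℂ ⊗[ℚ] A.H1))) := by
      intro x hx
      induction hx using Algebra.adjoin_induction with
      | mem x hx => exact Algebra.subset_adjoin ⟨x, hx, rfl⟩
      | algebraMap r =>
        rw [AlgEquiv.commutes]
        exact Subalgebra.algebraMap_mem _ r
      | add x y _ _ hx hy => rw [map_add]; exact Subalgebra.add_mem _ hx hy
      | mul x y _ _ hx hy => rw [map_mul]; exact Subalgebra.mul_mem _ hx hy
    exact h1 _ (hgen σ i j)
  cen := by
    intro x hx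
    obtain ⟨X, hX, hXx⟩ := hcen x hx
    refine ⟨X, hX, ?_⟩
    have h1 := matE_toC X
    rw [← h1, hXx, map_sum]
    refine Finset.sum_congr rfl fun σ _ => ?_
    rw [map_smul, map_sum]
    congr 1
    unfold NN
    refine Finset.sum_congr rfl fun i _ => ?_
    rw [map_sub, map_mul, map_mul]

end Pool.Agent.T9h38.KS

end
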