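import Pool.Agent.T9h38.CM.Fam

set_option autoImplicit false
set_option linter.unusedSectionVars false

/-!
# CM fields whose stable spaces of odd functions contain functions with values 0, 1, -1
-/

open Module

noncomputable section

namespace Pool.Agent.T9h38.KS

open Pool.Agent.T9h38.CM

variable {F : Type} [Field F] [NumberField F]

local instance decE : DecidableEq (F →+* ℂ) := Classical.decEq _

/-- Every nonzero stable space of odd functions contains a nonzero function with values in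
`{0, 1, -1}`. -/
def HasSmall (F : Type) [Field F] : Prop :=
  ∀ J : Submodule ℚ ((F →+* ℂ) → ℚ),
    (∀ (τ : ℂ ≃+* ℂ), ∀ f ∈ J, (fun φ => f ((τ : ℂ →+* ℂ).comp φ)) ∈ J) →
    (∀ f ∈ J, ∀ φ, f (cj φ) = -f φ) → J ≠ ⊥ →
    ∃ f ∈ J, f ≠ 0 ∧ ∀ φ, f φ = 0 ∨ f φ = 1 ∨ f φ = -1

variable {k : ℕ}

/-- One embedding from each pair of conjugate embeddings. -/
def Half (e : Fin k → (F →+* ℂ)) : Prop := ∀ φ : F →+* ℂ, ∃! σ, φ = e σ ∨ φ = cj (e σ)

section CMField

variable [NumberField.IsCMField F]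

theorem Half.ne {e : Fin k → (F →+* ℂ)} (h : Half e) (σ τ : Fin k) : e σ ≠ cj (e τ) := by
  intro h1
  obtain ⟨ρ, _, h3⟩ := h (e σ)
  have h4 := h3 σ (Or.inl rfl)
  have h5 := h3 τ (Or.inr h1)
  rw [h5.trans h4.symm] at h1
  exact cj_ne _ h1.symm

theorem Half.inj {e : Fin k → (F →+* ℂ)} (h : Half e) {σ τ : Fin k} (h1 : e σ = e τ) : σ = τ := by
  obtain ⟨ρ, _, h3⟩ := h (e σ)
  exact (h3 σ (Or.inl rfl)).trans (h3 τ (Or.inl h1)).symm

theorem Half.eps {e : Fin k → (F →+* ℂ)} (h : Half e) (σ τ : Fin k) :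
    eps cj (e σ) (e τ) = if σ = τ then 1 else 0 := by
  by_cases h1 : σ = τ
  · rw [h1, if_pos rfl, eps_self]
  · rw [if_neg h1, eps_of_ne (fun h2 => h1 (h.inj h2).symm) (h.ne τ σ)]

/-- An odd function is the combination of the functions `eps`. -/
theorem Half.odd_eq {e : Fin k → (F →+* ℂ)} (h : Half e) {f : (F →+* ℂ) → ℚ}
    (hf : ∀ φ, f (cj φ) = -f φ) : f = ∑ σ, f (e σ) • Pool.Agent.T9h38.CM.eps cj (e σ) := by
  funext φ
  have key : ∀ τ, f (e τ) = (∑ σ, f (e σ) • Pool.Agent.T9h38.CM.eps cj (e σ)) (e τ) := by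
    intro τ
    rw [Finset.sum_apply, Finset.sum_eq_single τ]
    · rw [Pi.smul_apply, h.eps, if_pos rfl, smul_eq_mul, mul_one]
    · intro σ _ hσ
      rw [Pi.smul_apply, h.eps, if_neg hσ, smul_zero]
    · intro h; exact absurd (Finset.mem_univ _) h
  obtain ⟨τ, h1 | h1, _⟩ := h φ
  · rw [h1]
    exact key τ
  · rw [h1, hf, key τ, Finset.sum_apply, Finset.sum_apply, ← Finset.sum_neg_distrib]
    refine Finset.sum_congr rfl fun σ _ => ?_
    rw [Pi.smul_apply, Pi.smul_apply, eps_odd]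
    simp

theorem sum_eps {x : F} (hx : NumberField.IsCMField.complexConj F x = -x) (ψ : F →+* ℂ) :
    ∑ φ, (Pool.Agent.T9h38.CM.eps cj ψ φ : ℂ) * φ x = 2 * ψ x := by
  have hcj : ∀ φ : F →+* ℂ, cj φ x = -φ x := by
    intro φ
    have h1 : cj φ x = φ (NumberField.IsCMField.complexConj F x) := by
      rw [NumberField.IsCMField.complexEmbedding_complexConj]
      rfl
    rw [h1, hx, map_neg]
  have h1 : ∀ φ : F →+* ℂ, (Pool.Agent.T9h38.CM.eps cj ψ φ : ℂ) * φ x =
      (if φ = ψ then φ x else 0) - (if φ = cj ψ then φ x else 0) := by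
    intro φ
    unfold Pool.Agent.T9h38.CM.eps
    split_ifs <;> push_cast <;> ring
  rw [Finset.sum_congr rfl fun φ _ => h1 φ, Finset.sum_sub_distrib, Finset.sum_ite_eq',
    Finset.sum_ite_eq', if_pos (Finset.mem_univ _), if_pos (Finset.mem_univ _), hcj]
  ring

theorem Half.sum_odd {e : Fin k → (F →+* ℂ)} (h : Half e) {f : (F →+* ℂ) → ℚ}
    (hf : ∀ φ, f (cj φ) = -f φ) {x : F} (hx : NumberField.IsCMField.complexConj F x = -x) :
    ∑ φ, (f φ : ℂ) * φ x = 2 * ∑ σ, (f (e σ) : ℂ) * e σ x := by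
  have h1 : ∀ φ : F →+* ℂ, (f φ : ℂ) * φ x =
      ∑ σ, (f (e σ) : ℂ) * ((Pool.Agent.T9h38.CM.eps cj (e σ) φ : ℂ) * φ x) := by
    intro φ
    have h2 := congrFun (h.odd_eq hf) φ
    rw [h2, Finset.sum_apply]
    push_cast
    rw [Finset.sum_mul]
    refine Finset.sum_congr rfl fun σ _ => ?_
    rw [Pi.smul_apply, smul_eq_mul]
    push_cast
    ring
  rw [Finset.sum_congr rfl fun φ _ => h1 φ, Finset.sum_comm, Finset.mul_sum]
  refine Finset.sum_congr rfl fun σ _ => ?_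
  rw [← Finset.mul_sum, sum_eps hx]
  ring

/-- The space of the odd functions which are relations between the conjugates of `x`. -/
def relJ (x : F) : Submodule ℚ ((F →+* ℂ) → ℚ) where
  carrier := {f | (∀ φ, f (cj φ) = -f φ) ∧ ∑ φ, (f φ : ℂ) * φ x = 0}
  zero_mem' := ⟨fun φ => by simp, by simp⟩
  add_mem' := by
    rintro f f' ⟨h1, h2⟩ ⟨h3, h4⟩
    refine ⟨fun φ => ?_, ?_⟩
    · rw [Pi.add_apply, Pi.add_apply, h1, h3]
      ring
    · have h5 : ∑ φ, ((f + f') φ : ℂ) * φ x = ∑ φ, (f φ : ℂ) * φ x + ∑ φ, (f' φ : ℂ) * φ x := by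
        rw [← Finset.sum_add_distrib]
        refine Finset.sum_congr rfl fun φ _ => ?_
        rw [Pi.add_apply]
        push_cast
        ring
      rw [h5, h2, h4, add_zero]
  smul_mem' := by
    rintro c f ⟨h1, h2⟩
    refine ⟨fun φ => ?_, ?_⟩
    · rw [Pi.smul_apply, Pi.smul_apply, h1]
      simp
    · have h5 : ∑ φ, ((c • f) φ : ℂ) * φ x = (c : ℂ) * ∑ φ, (f φ : ℂ) * φ x := by
        rw [Finset.mul_sum]
        refine Finset.sum_congr rfl fun φ _ => ?_
        rw [Pi.smul_apply, smul_eq_mul]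
        push_cast
        ring
      rw [h5, h2, mul_zero]

theorem relJ_stable (x : F) (τ : ℂ ≃+* ℂ) : ∀ f ∈ relJ x,
    (fun φ : F →+* ℂ => f ((τ : ℂ →+* ℂ).comp φ)) ∈ relJ x := by
  rintro f ⟨h1, h2⟩
  refine ⟨fun φ => ?_, ?_⟩
  · change f (mv τ (cj φ)) = -f (mv τ φ)
    rw [mv_cj, h1]
  · change ∑ φ, (f (mv τ φ) : ℂ) * φ x = 0
    apply τ.injective
    rw [map_zero, map_sum]
    have h3 : ∀ φ : F →+* ℂ, τ ((f (mv τ φ) : ℂ) * φ x) = (fun ψ => (f ψ : ℂ) * ψ x) (mvE τ φ) := by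
      intro φ
      rw [map_mul, map_ratCast]
      rfl
    rw [Finset.sum_congr rfl fun φ _ => h3 φ]
    exact (Equiv.sum_comp (mvE τ) (fun ψ : F →+* ℂ => (f ψ : ℂ) * ψ x)).trans h2

/-- The conjugates of `x` are linearly independent if they satisfy no relation with coefficients
`0, 1, -1`. -/
theorem indep (hs : HasSmall F) {e : Fin k → (F →+* ℂ)} (h : Half e) {x : F}
    (hx : NumberField.IsCMField.complexConj F x = -x)
    (hsm : ∀ f : Fin k → ℤ, (∀ σ, f σ = 1 ∨ f σ = -1 ∨ f σ = 0) →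
      ∑ σ, (f σ : ℂ) * e σ x = 0 → f = 0) :
    ∀ m : Fin k → ℤ, ∑ σ, (m σ : ℂ) * e σ x = 0 → m = 0 := by
  intro m hm
  by_contra hne
  obtain ⟨f, hf⟩ : ∃ f : (F →+* ℂ) → ℚ, f = ∑ σ, (m σ : ℚ) • Pool.Agent.T9h38.CM.eps cj (e σ) :=
    ⟨_, rfl⟩
  have hodd : ∀ φ, f (cj φ) = -f φ := by
    intro φ
    rw [hf, Finset.sum_apply, Finset.sum_apply, ← Finset.sum_neg_distrib]
    refine Finset.sum_congr rfl fun σ _ => ?_
    rw [Pi.smul_apply, Pi.smul_apply, eps_odd]
    simp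
  have hfe : ∀ τ, f (e τ) = m τ := by
    intro τ
    rw [hf, Finset.sum_apply, Finset.sum_eq_single τ]
    · rw [Pi.smul_apply, h.eps, if_pos rfl, smul_eq_mul, mul_one]
    · intro σ _ hσ
      rw [Pi.smul_apply, h.eps, if_neg hσ, smul_zero]
    · intro h; exact absurd (Finset.mem_univ _) h
  have hfJ : f ∈ relJ x := by
    refine ⟨hodd, ?_⟩
    rw [h.sum_odd hodd hx, Finset.sum_congr rfl fun σ _ => by rw [hfe, Rat.cast_intCast], hm,
      mul_zero]
  have hJ : relJ x ≠ ⊥ := by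
    intro h0
    rw [h0, Submodule.mem_bot] at hfJ
    apply hne
    funext σ
    have h1 := hfe σ
    rw [hfJ, Pi.zero_apply] at h1
    exact_mod_cast h1.symm
  obtain ⟨q, hq, hq0, hqv⟩ := hs (relJ x) (relJ_stable x) (fun f hf => hf.1) hJ
  apply hq0
  have h1 : ∀ σ, ∃ z : ℤ, (z = 1 ∨ z = -1 ∨ z = 0) ∧ q (e σ) = z := by
    intro σ
    rcases hqv (e σ) with h1 | h1 | h1
    · exact ⟨0, by simp, by rw [h1]; simp⟩
    · exact ⟨1, by simp, by rw [h1]; simp⟩
    · exact ⟨-1, by simp, by rw [h1]; simp⟩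
  choose z hz1 hz2 using h1
  have h2 := hq.2
  rw [h.sum_odd hq.1 hx, Finset.sum_congr rfl fun σ _ => by rw [hz2, Rat.cast_intCast]] at h2
  have h3 := hsm z hz1 ((mul_eq_zero.1 h2).resolve_left two_ne_zero)
  rw [h.odd_eq hq.1]
  refine Finset.sum_eq_zero fun σ _ => ?_
  rw [hz2, h3, Pi.zero_apply, Int.cast_zero, zero_smul]

/-- Dedekind: a relation between the embeddings in the list on the purely imaginary elements. -/
theorem Half.dedekind {e : Fin k → (F →+* ℂ)} (h : Half e) (d : Fin k → ℂ)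
    (hd : ∀ x : F, NumberField.IsCMField.complexConj F x = -x → ∑ σ, d σ * e σ x = 0) :
    d = 0 := by
  have h1 : ∀ y : F, ∑ σ, d σ * e σ y - ∑ σ, d σ * cj (e σ) y = 0 := by
    intro y
    have h2 := hd (y - NumberField.IsCMField.complexConj F y) (by
      rw [map_sub, NumberField.IsCMField.complexConj_apply_apply]
      ring)
    rw [← h2, ← Finset.sum_sub_distrib]
    refine Finset.sum_congr rfl fun σ _ => ?_
    have h3 : cj (e σ) y = e σ (NumberField.IsCMField.complexConj F y) := by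
      rw [NumberField.IsCMField.complexEmbedding_complexConj]
      rfl
    rw [h3, map_sub]
    ring
  have hli : LinearIndependent ℂ (fun (φ : F →+* ℂ) => (φ : F → ℂ)) := by
    have h2 := linearIndependent_monoidHom F ℂ
    have h3 : (fun (φ : F →+* ℂ) => (φ : F → ℂ)) =
        (fun f : F →* ℂ => (f : F → ℂ)) ∘ (fun φ : F →+* ℂ => (φ : F →* ℂ)) := rfl
    rw [h3]
    refine h2.comp _ fun φ ψ hφψ => ?_
    ext x
    exact congrArg (fun f : F →* ℂ => f x) hφψ
  rw [Fintype.linearIndependent_iff] at hli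
  let c : (F →+* ℂ) → ℂ := fun φ => ∑ σ, d σ * (Pool.Agent.T9h38.CM.eps cj (e σ) φ : ℂ)
  have h2 : ∑ φ, c φ • (φ : F → ℂ) = 0 := by
    funext y
    rw [Finset.sum_apply, Pi.zero_apply, ← h1 y]
    have h3 : ∀ φ : F →+* ℂ, (c φ • (φ : F → ℂ)) y =
        ∑ σ, ((if φ = e σ then d σ * φ y else 0) - (if φ = cj (e σ) then d σ * φ y else 0)) := by
      intro φ
      rw [Pi.smul_apply, smul_eq_mul, Finset.sum_mul]
      refine Finset.sum_congr rfl fun σ _ => ?_
      unfold Pool.Agent.T9h38.CM.eps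
      split_ifs <;> push_cast <;> ring
    rw [Finset.sum_congr rfl fun φ _ => h3 φ, Finset.sum_comm, ← Finset.sum_sub_distrib]
    refine Finset.sum_congr rfl fun σ _ => ?_
    rw [Finset.sum_sub_distrib, Finset.sum_ite_eq', Finset.sum_ite_eq',
      if_pos (Finset.mem_univ _), if_pos (Finset.mem_univ _)]
  funext τ
  have h3 : c (e τ) = 0 := hli c h2 (e τ)
  change ∑ σ, d σ * (Pool.Agent.T9h38.CM.eps cj (e σ) (e τ) : ℂ) = 0 at h3
  rw [Finset.sum_eq_single τ] at h3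
  · rw [h.eps, if_pos rfl, Rat.cast_one, mul_one] at h3
    exact h3
  · intro σ _ hσ
    rw [h.eps, if_neg hσ, Rat.cast_zero, mul_zero]
  · intro h; exact absurd (Finset.mem_univ _) h

/-- The conjugates of the purely imaginary elements span. -/
theorem Half.span {e : Fin k → (F →+* ℂ)} (h : Half e) :
    Submodule.span ℂ {v : Fin k → ℂ | ∃ x : F, NumberField.IsCMField.complexConj F x = -x ∧
      v = fun σ => e σ x} = ⊤ := by
  by_contra hne
  obtain ⟨l, hl, hle⟩ := Submodule.exists_le_ker_of_lt_top _ (lt_top_iff_ne_top.2 hne)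
  apply hl
  have h1 : ∀ v : Fin k → ℂ, l v = ∑ σ, l (Pi.single σ 1) * v σ := by
    intro v
    conv_lhs => rw [← Finset.univ_sum_single v]
    rw [map_sum]
    refine Finset.sum_congr rfl fun σ _ => ?_
    have h2 : (Pi.single σ (v σ) : Fin k → ℂ) = v σ • Pi.single σ 1 := by
      rw [← Pi.single_smul, smul_eq_mul, mul_one]
    rw [h2, map_smul, smul_eq_mul, mul_comm]
  have h2 := h.dedekind (fun σ => l (Pi.single σ 1)) fun x hx => by
    rw [← h1 fun σ => e σ x]
    exact hle (Submodule.subset_span ⟨x, hx, rfl⟩)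
  refine LinearMap.ext fun v => ?_
  rw [h1 v, LinearMap.zero_apply]
  refine Finset.sum_eq_zero fun σ _ => ?_
  have h3 : l (Pi.single σ 1) = 0 := congrFun h2 σ
  rw [h3, zero_mul]

end CMField

end Pool.Agent.T9h38.KS

end
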